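import Mathlib

/-!
# The topological lemma: a connected set of bad blocks meets every line
-/

open Finset

namespace Pool.Agent.H991.VF

noncomputable section

variable {D M : ℕ} [NeZero M]

/-- the next block in the direction `i` -/
def up (i : Fin D) (B : Fin D → ZMod M) : Fin D → ZMod M := Function.update B i (B i + 1)

omit [NeZero M] in
lemma up_comm {i j : Fin D} (hij : i ≠ j) (B : Fin D → ZMod M) : up i (up j B) = up j (up i B) := by
  unfold up
  rw [Function.update_of_ne hij, Function.update_of_ne hij.symm, Function.update_comm hij]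

/-- neighbours, including the diagonal ones -/
def Nr (B B' : Fin D → ZMod M) : Prop := ∀ i, B' i = B i ∨ B' i = B i + 1 ∨ B i = B' i + 1

omit [NeZero M] in
lemma Nr_symm {B B' : Fin D → ZMod M} (h : Nr B B') : Nr B' B := by
  intro i
  rcases h i with h | h | h
  · exact Or.inl h.symm
  · exact Or.inr (Or.inr h)
  · exact Or.inr (Or.inl h)

omit [NeZero M] in
lemma Nr_up (i : Fin D) (B : Fin D → ZMod M) : Nr B (up i B) := by
  intro j
  unfold up
  by_cases hj : j = i
  · subst hj
    rw [Function.update_self]
    exact Or.inr (Or.inl rfl)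
  · rw [Function.update_of_ne hj]
    exact Or.inl rfl

/-- the graph of the bad blocks -/
def gA (A : Finset (Fin D → ZMod M)) : SimpleGraph (Fin D → ZMod M) where
  Adj u v := u ≠ v ∧ u ∈ A ∧ v ∈ A ∧ Nr u v
  symm := ⟨fun u v h => ⟨h.1.symm, h.2.2.1, h.2.1, Nr_symm h.2.2.2⟩⟩
  loopless := ⟨fun u h => h.1 rfl⟩

omit [NeZero M] in
lemma mk_eq (A : Finset (Fin D → ZMod M)) {u v : Fin D → ZMod M} (hu : u ∈ A) (hv : v ∈ A)
    (h : Nr u v) : (gA A).connectedComponentMk u = (gA A).connectedComponentMk v := by
  by_cases he : u = v
  · rw [he]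
  · exact SimpleGraph.ConnectedComponent.eq.2 (SimpleGraph.Adj.reachable ⟨he, hu, hv, h⟩)

/-- an edge touches the component -/
def tch (A : Finset (Fin D → ZMod M)) (c : (gA A).ConnectedComponent) (i : Fin D)
    (B : Fin D → ZMod M) : Prop :=
  (B ∈ A ∧ (gA A).connectedComponentMk B = c) ∨
    (up i B ∈ A ∧ (gA A).connectedComponentMk (up i B) = c)

variable {C : Type*} [CommGroup C]

/-- a closed form -/
def Cl (w : Fin D → (Fin D → ZMod M) → C) : Prop :=
  ∀ i j B, i ≠ j → w i B * w j (up i B) = w j B * w i (up j B)

open Classical in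
/-- the part of a form which belongs to a component -/
def vc (A : Finset (Fin D → ZMod M)) (v : Fin D → (Fin D → ZMod M) → C)
    (c : (gA A).ConnectedComponent) (i : Fin D) (B : Fin D → ZMod M) : C :=
  if tch A c i B then v i B else 1

omit [NeZero M] in
lemma vc_closed (A : Finset (Fin D → ZMod M)) (v : Fin D → (Fin D → ZMod M) → C) (hv : Cl v)
    (h1 : ∀ i B, B ∉ A → up i B ∉ A → v i B = 1) (c : (gA A).ConnectedComponent) :
    Cl (vc A v c) := by
  classical
  intro i j B hij
  -- the four vertices
  have n1 : Nr B (up i B) := Nr_up i B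
  have n2 : Nr B (up j B) := Nr_up j B
  have n3 : Nr B (up i (up j B)) := by
    intro m
    unfold up
    by_cases hm : m = i
    · subst hm
      rw [Function.update_self, Function.update_of_ne hij]
      exact Or.inr (Or.inl rfl)
    · rw [Function.update_of_ne hm]
      by_cases hm' : m = j
      · subst hm'
        rw [Function.update_self]
        exact Or.inr (Or.inl rfl)
      · rw [Function.update_of_ne hm']
        exact Or.inl rfl
  have n4 : Nr (up i B) (up j B) := by
    intro m
    unfold up
    by_cases hm : m = i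
    · subst hm
      rw [Function.update_self, Function.update_of_ne hij]
      exact Or.inr (Or.inr rfl)
    · rw [Function.update_of_ne hm]
      by_cases hm' : m = j
      · subst hm'
        rw [Function.update_self]
        exact Or.inr (Or.inl rfl)
      · rw [Function.update_of_ne hm']
        exact Or.inl rfl
  have n5 : Nr (up i B) (up i (up j B)) := by rw [up_comm hij]; exact Nr_up j _
  have n6 : Nr (up j B) (up i (up j B)) := Nr_up i _
  have n0 : ∀ x : Fin D → ZMod M, Nr x x := fun x m => Or.inl rfl
  -- all pairs
  obtain ⟨Q, hQ⟩ : ∃ Q : Finset (Fin D → ZMod M), Q = {B, up i B, up j B, up i (up j B)} := ⟨_, rfl⟩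
  have hQn : ∀ x ∈ Q, ∀ y ∈ Q, Nr x y := by
    intro x hx y hy
    rw [hQ] at hx hy
    simp only [Finset.mem_insert, Finset.mem_singleton] at hx hy
    rcases hx with rfl | rfl | rfl | rfl <;> rcases hy with rfl | rfl | rfl | rfl
    · exact n0 _
    · exact n1
    · exact n2
    · exact n3
    · exact Nr_symm n1
    · exact n0 _
    · exact n4
    · exact n5
    · exact Nr_symm n2
    · exact Nr_symm n4
    · exact n0 _
    · exact n6
    · exact Nr_symm n3
    · exact Nr_symm n5
    · exact Nr_symm n6
    · exact n0 _
  have q1 : B ∈ Q := by rw [hQ]; simp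
  have q2 : up i B ∈ Q := by rw [hQ]; simp
  have q3 : up j B ∈ Q := by rw [hQ]; simp
  have q4 : up i (up j B) ∈ Q := by rw [hQ]; simp
  have q4' : up j (up i B) ∈ Q := by rw [up_comm hij.symm]; exact q4
  by_cases hc : ∃ x ∈ Q, x ∈ A ∧ (gA A).connectedComponentMk x = c
  · obtain ⟨x, hxQ, hxA, hxc⟩ := hc
    have hv' : ∀ (m : Fin D) (y : Fin D → ZMod M), y ∈ Q → up m y ∈ Q → vc A v c m y = v m y := by
      intro m y hy hy'
      unfold vc
      by_cases ht : tch A c m y
      · rw [if_pos ht]
      · rw [if_neg ht]
        symm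
        refine h1 m y (fun hyA => ht (Or.inl ⟨hyA, ?_⟩)) (fun hyA => ht (Or.inr ⟨hyA, ?_⟩))
        · rw [← hxc]
          exact mk_eq A hyA hxA (hQn y hy x hxQ)
        · rw [← hxc]
          exact mk_eq A hyA hxA (hQn _ hy' x hxQ)
    rw [hv' i B q1 q2, hv' j (up i B) q2 q4', hv' j B q1 q3, hv' i (up j B) q3 q4]
    exact hv i j B hij
  · have hv' : ∀ (m : Fin D) (y : Fin D → ZMod M), y ∈ Q → up m y ∈ Q → vc A v c m y = 1 := by
      intro m y hy hy'
      unfold vc
      rw [if_neg]
      rintro (ht | ht)
      · exact hc ⟨y, hy, ht⟩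
      · exact hc ⟨_, hy', ht⟩
    rw [hv' i B q1 q2, hv' j (up i B) q2 q4', hv' j B q1 q3, hv' i (up j B) q3 q4]

/-- the product over a line -/
def per (i : Fin D) (w : Fin D → (Fin D → ZMod M) → C) (B : Fin D → ZMod M) : C :=
  ∏ c : ZMod M, w i (Function.update B i c)

lemma per_up (i : Fin D) (w : Fin D → (Fin D → ZMod M) → C) (hw : Cl w) (j : Fin D)
    (B : Fin D → ZMod M) : per i w (up j B) = per i w B := by
  unfold per
  by_cases hj : j = i
  · subst hj
    refine Finset.prod_congr rfl fun c _ => ?_
    unfold up
    rw [Function.update_idem]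
  · have e1 : ∀ c : ZMod M, Function.update (up j B) i c = up j (Function.update B i c) := by
      intro c
      unfold up
      rw [Function.update_of_ne hj, Function.update_comm hj]
    have e2 : ∀ c : ZMod M, up i (Function.update B i c) = Function.update B i (c + 1) := by
      intro c
      unfold up
      rw [Function.update_self, Function.update_idem]
    have h1 : (∏ c : ZMod M, w i (Function.update B i c)) *
        (∏ c : ZMod M, w j (Function.update B i (c + 1))) =
        (∏ c : ZMod M, w j (Function.update B i c)) *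
        ∏ c : ZMod M, w i (up j (Function.update B i c)) := by
      rw [← Finset.prod_mul_distrib, ← Finset.prod_mul_distrib]
      refine Finset.prod_congr rfl fun c _ => ?_
      rw [← e2]
      exact hw i j _ (fun h => hj h.symm)
    have h2 : ∏ c : ZMod M, w j (Function.update B i (c + 1)) =
        ∏ c : ZMod M, w j (Function.update B i c) :=
      Equiv.prod_comp (Equiv.addRight (1 : ZMod M)) (fun c => w j (Function.update B i c))
    rw [h2, mul_comm] at h1
    have h3 := mul_left_cancel h1
    simp only [e1]
    exact h3.symm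

lemma const_of_up {X : Type*} (f : (Fin D → ZMod M) → X) (h : ∀ j B, f (up j B) = f B)
    (B B' : Fin D → ZMod M) : f B' = f B := by
  classical
  have h1 : ∀ (j : Fin D) (n : ℕ) (B : Fin D → ZMod M),
      f (Function.update B j (B j + n)) = f B := by
    intro j n
    induction n with
    | zero => intro B; simp
    | succ n ih =>
      intro B
      rw [← ih B, ← h j (Function.update B j (B j + n))]
      congr 1
      unfold up
      rw [Function.update_self, Function.update_idem]
      push_cast
      rw [add_assoc]
  have h2 : ∀ (j : Fin D) (c : ZMod M) (B : Fin D → ZMod M), f (Function.update B j c) = f B := by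
    intro j c B
    have := h1 j (c - B j).val B
    rwa [ZMod.natCast_zmod_val, add_sub_cancel] at this
  have h3 : ∀ S : Finset (Fin D), f (fun j => if j ∈ S then B' j else B j) = f B := by
    intro S
    induction S using Finset.induction_on with
    | empty => simp
    | insert i S hi ih =>
      rw [← ih, ← h2 i (B' i) (fun j => if j ∈ S then B' j else B j)]
      congr 1
      funext j
      by_cases hj : j = i
      · subst hj; simp
      · rw [Function.update_of_ne hj]; simp [hj]
  have := h3 Finset.univ
  simpa using this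

open Classical in
/-- the product of the parts is the form -/
lemma prod_vc (A : Finset (Fin D → ZMod M)) (v : Fin D → (Fin D → ZMod M) → C)
    (h1 : ∀ i B, B ∉ A → up i B ∉ A → v i B = 1) (i : Fin D) (B : Fin D → ZMod M) :
    ∏ c : (gA A).ConnectedComponent, vc A v c i B = v i B := by
  by_cases hB : B ∈ A
  · rw [Finset.prod_eq_single ((gA A).connectedComponentMk B)]
    · unfold vc
      exact if_pos (show tch A ((gA A).connectedComponentMk B) i B from Or.inl ⟨hB, rfl⟩)
    · intro c _ hc
      unfold vc
      rw [if_neg]
      rintro (⟨_, ht⟩ | ⟨h2, ht⟩)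
      · exact hc ht.symm
      · apply hc
        rw [← ht]
        exact (mk_eq A hB h2 (Nr_up i B)).symm
    · intro hc
      exact absurd (Finset.mem_univ _) hc
  · by_cases hB' : up i B ∈ A
    · rw [Finset.prod_eq_single ((gA A).connectedComponentMk (up i B))]
      · unfold vc
        exact if_pos (show tch A ((gA A).connectedComponentMk (up i B)) i B from
          Or.inr ⟨hB', rfl⟩)
      · intro c _ hc
        unfold vc
        rw [if_neg]
        rintro (⟨h2, _⟩ | ⟨_, ht⟩)
        · exact hB h2
        · exact hc ht.symm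
      · intro hc
        exact absurd (Finset.mem_univ _) hc
    · rw [h1 i B hB hB']
      refine Finset.prod_eq_one fun c _ => ?_
      unfold vc
      rw [if_neg]
      rintro (⟨h2, _⟩ | ⟨h2, _⟩)
      · exact hB h2
      · exact hB' h2

/-- the topological lemma -/
theorem topo (A : Finset (Fin D → ZMod M)) (lam : (Fin D → ZMod M) → C) (k : Fin D → C)
    (hg : ∀ i B, B ∉ A → up i B ∉ A → lam B = lam (up i B) * (if B i = -1 then k i else 1))
    (i : Fin D) (hk : k i ≠ 1) :
    ∃ c : (gA A).ConnectedComponent, ∀ B : Fin D → ZMod M, ∃ q ∈ A,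
      (gA A).connectedComponentMk q = c ∧ ∀ j, j ≠ i → q j = B j := by
  classical
  obtain ⟨v, hv⟩ : ∃ v : Fin D → (Fin D → ZMod M) → C, v = fun i B =>
    lam B * (lam (up i B))⁻¹ * (if B i = -1 then k i else 1)⁻¹ := ⟨_, rfl⟩
  have hcl : Cl v := by
    intro i j B hij
    have e1 : (up i B) j = B j := by unfold up; rw [Function.update_of_ne hij.symm]
    have e2 : (up j B) i = B i := by unfold up; rw [Function.update_of_ne hij]
    rw [hv]
    simp only [e1, e2]
    rw [up_comm hij]
    generalize (if B i = -1 then k i else 1)⁻¹ = a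
    generalize (if B j = -1 then k j else 1)⁻¹ = b
    generalize lam B = x1
    generalize lam (up j (up i B)) = x4
    generalize lam (up i B) = x2
    generalize lam (up j B) = x3
    calc x1 * x2⁻¹ * a * (x2 * x4⁻¹ * b) = x1 * x4⁻¹ * a * b * (x2⁻¹ * x2) := by ac_rfl
      _ = x1 * x4⁻¹ * a * b * (x3⁻¹ * x3) := by rw [inv_mul_cancel, inv_mul_cancel]
      _ = _ := by ac_rfl
  have h1 : ∀ i B, B ∉ A → up i B ∉ A → v i B = 1 := by
    intro i B hB hB'
    rw [hv]
    simp only
    rw [hg i B hB hB']
    generalize (if B i = -1 then k i else 1) = a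
    generalize lam (up i B) = x
    calc x * a * x⁻¹ * a⁻¹ = (x * x⁻¹) * (a * a⁻¹) := by ac_rfl
      _ = 1 := by rw [mul_inv_cancel, mul_inv_cancel, one_mul]
  -- the product over a line
  have hper : ∀ B, per i v B = (k i)⁻¹ := by
    intro B
    unfold per
    rw [hv]
    simp only [Function.update_self]
    have e2 : ∀ c : ZMod M, up i (Function.update B i c) = Function.update B i (c + 1) := by
      intro c
      unfold up
      rw [Function.update_self, Function.update_idem]
    rw [Finset.prod_mul_distrib, Finset.prod_mul_distrib, Finset.prod_inv_distrib,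
      Finset.prod_inv_distrib]
    have h2 : ∏ c : ZMod M, lam (up i (Function.update B i c)) =
        ∏ c : ZMod M, lam (Function.update B i c) := by
      simp only [e2]
      exact Equiv.prod_comp (Equiv.addRight (1 : ZMod M)) (fun c => lam (Function.update B i c))
    rw [h2, mul_inv_cancel, one_mul, Finset.prod_ite_eq' Finset.univ (-1 : ZMod M) (fun _ => k i),
      if_pos (Finset.mem_univ _)]
  have hp : ∀ B, ∏ c : (gA A).ConnectedComponent, per i (vc A v c) B = (k i)⁻¹ := by
    intro B
    rw [← hper B]
    unfold per
    rw [Finset.prod_comm]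
    refine Finset.prod_congr rfl fun c _ => ?_
    exact prod_vc A v h1 i _
  obtain ⟨c, _, hc⟩ := Finset.exists_ne_one_of_prod_ne_one (s := Finset.univ)
    (f := fun c : (gA A).ConnectedComponent => per i (vc A v c) (fun _ => 0))
    (by rw [hp]; exact inv_ne_one.2 hk)
  refine ⟨c, fun B => ?_⟩
  have h3 : per i (vc A v c) B ≠ 1 := by
    rw [const_of_up (per i (vc A v c)) (fun j B => per_up i _ (vc_closed A v hcl h1 c) j B)
      (fun _ => 0) B]
    exact hc
  unfold per at h3
  obtain ⟨x, _, hx⟩ := Finset.exists_ne_one_of_prod_ne_one h3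
  have ht : tch A c i (Function.update B i x) := by
    by_contra hcon
    apply hx
    unfold vc
    rw [if_neg hcon]
  rcases ht with ⟨h4, h5⟩ | ⟨h4, h5⟩
  · refine ⟨_, h4, h5, fun j hj => ?_⟩
    rw [Function.update_of_ne hj]
  · refine ⟨_, h4, h5, fun j hj => ?_⟩
    unfold up
    rw [Function.update_of_ne hj, Function.update_of_ne hj]

end

end Pool.Agent.H991.VF
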