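import Mathlib
import Pool.Agent.H991.VF.Top

/-!
# Connected sets of blocks are covered by short walks
-/

open Finset

namespace Pool.Agent.H991.VF

noncomputable section

variable {D M : ℕ} [NeZero M]

/-- the neighbours -/
def nbs (p : Fin D → ZMod M) : Finset (Fin D → ZMod M) :=
  Fintype.piFinset fun i => {p i, p i + 1, p i - 1}

omit [NeZero M] in
lemma mem_nbs {p q : Fin D → ZMod M} (h : Nr p q) : q ∈ nbs p := by
  unfold nbs
  rw [Fintype.mem_piFinset]
  intro i
  simp only [Finset.mem_insert, Finset.mem_singleton]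
  rcases h i with h | h | h
  · exact Or.inl h
  · exact Or.inr (Or.inl h)
  · exact Or.inr (Or.inr (by rw [h, add_sub_cancel_right]))

omit [NeZero M] in
lemma nbs_card (p : Fin D → ZMod M) : (nbs p).card ≤ 3 ^ D := by
  unfold nbs
  rw [Fintype.card_piFinset]
  calc ∏ i : Fin D, ({p i, p i + 1, p i - 1} : Finset (ZMod M)).card ≤ ∏ _i : Fin D, 3 :=
        Finset.prod_le_prod' fun i _ => Finset.card_le_three
    _ = 3 ^ D := by simp

/-- the walks of `n` steps -/
def Wk : ℕ → (Fin D → ZMod M) → Finset (List (Fin D → ZMod M))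
  | 0, p => {[p]}
  | n + 1, p => (nbs p).biUnion fun q => (Wk n q).image fun l => p :: l

omit [NeZero M] in
lemma Wk_card : ∀ (n : ℕ) (p : Fin D → ZMod M), (Wk n p).card ≤ (3 ^ D) ^ n
  | 0, p => by simp [Wk]
  | n + 1, p => by
    unfold Wk
    refine Finset.card_biUnion_le.trans ?_
    calc ∑ q ∈ nbs p, ((Wk n q).image fun l => p :: l).card
        ≤ ∑ _q ∈ nbs p, (3 ^ D) ^ n :=
          Finset.sum_le_sum fun q _ => Finset.card_image_le.trans (Wk_card n q)
      _ = (nbs p).card * (3 ^ D) ^ n := by rw [Finset.sum_const, smul_eq_mul]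
      _ ≤ 3 ^ D * (3 ^ D) ^ n := Nat.mul_le_mul_right _ (nbs_card p)
      _ = (3 ^ D) ^ (n + 1) := by ring

omit [NeZero M] in
lemma mem_Wk : ∀ (l : List (Fin D → ZMod M)) (p : Fin D → ZMod M), (p :: l).IsChain Nr →
    p :: l ∈ Wk l.length p
  | [], p, _ => by simp [Wk]
  | q :: l, p, h => by
    rw [List.isChain_cons_cons] at h
    have ih := mem_Wk l q h.2
    rw [List.length_cons]
    unfold Wk
    rw [Finset.mem_biUnion]
    exact ⟨q, mem_nbs h.1, Finset.mem_image.2 ⟨q :: l, ih, rfl⟩⟩

open Classical in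
/-- a walk which covers `m` points of a component -/
lemma cover (A : Finset (Fin D → ZMod M)) (p : Fin D → ZMod M) (hp : p ∈ A) (m : ℕ) (hm : 1 ≤ m)
    (hK : m ≤ (A.filter fun q => (gA A).connectedComponentMk q =
      (gA A).connectedComponentMk p).card) :
    ∃ l : List (Fin D → ZMod M), (p :: l).IsChain Nr ∧ (∀ x ∈ p :: l, x ∈ A) ∧
      l.length = 2 * (m - 1) ∧ (p :: l).toFinset.card = m := by
  induction m, hm using Nat.le_induction with
  | base =>
    refine ⟨[], by simp, by simpa using hp, by simp, by simp⟩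
  | succ m hm ih =>
    obtain ⟨l, h1, h2, h3, h4⟩ := ih (by omega)
    -- a point outside
    obtain ⟨q, hq, hq'⟩ : ∃ q ∈ A.filter (fun q => (gA A).connectedComponentMk q =
        (gA A).connectedComponentMk p), q ∉ (p :: l).toFinset := by
      by_contra hcon
      push Not at hcon
      have := Finset.card_le_card (s := A.filter (fun q => (gA A).connectedComponentMk q =
        (gA A).connectedComponentMk p)) (t := (p :: l).toFinset) hcon
      omega
    rw [Finset.mem_filter] at hq
    rw [List.mem_toFinset] at hq'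
    have hr : (gA A).Reachable p q := (SimpleGraph.ConnectedComponent.eq.1 hq.2).symm
    obtain ⟨W⟩ := hr
    obtain ⟨d, _, hd1, hd2⟩ := W.exists_boundary_dart {x | x ∈ p :: l} (by simp) hq'
    have hd1' : d.fst ∈ p :: l := hd1
    have hd2' : d.snd ∉ p :: l := hd2
    obtain ⟨_, ha1, ha2, ha3⟩ := d.adj
    obtain ⟨v, hv⟩ : ∃ v, v = d.fst := ⟨_, rfl⟩
    obtain ⟨u, hu⟩ : ∃ u, u = d.snd := ⟨_, rfl⟩
    rw [← hv] at hd1' ha3
    rw [← hu] at hd2' ha2 ha3
    obtain ⟨a, b, hab⟩ := List.append_of_mem hd1'
    -- the new walk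
    have key : ∀ w : List (Fin D → ZMod M), w = a ++ v :: u :: v :: b →
        w.IsChain Nr ∧ (∀ x ∈ w, x ∈ A) ∧ w.length = (p :: l).length + 2 ∧
          w.toFinset.card = m + 1 := by
      intro w hw
      rw [hab] at h1 h2 h4 hd2'
      rw [hab]
      refine ⟨?_, ?_, ?_, ?_⟩
      · rw [hw, List.isChain_append_cons_cons]
        have e1 : (a ++ [v]).IsChain Nr ∧ (v :: b).IsChain Nr := by
          have h5 := List.isChain_split.1 h1
          exact h5
        refine ⟨e1.1, ha3, ?_⟩
        rw [List.isChain_cons_cons]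
        exact ⟨Nr_symm ha3, e1.2⟩
      · intro x hx
        rw [hw] at hx
        simp only [List.mem_append, List.mem_cons] at hx
        have h6 : ∀ y, y ∈ a ∨ y = v ∨ y ∈ b → y ∈ A := by
          intro y hy
          apply h2
          simp only [List.mem_append, List.mem_cons]
          tauto
        rcases hx with hx | rfl | rfl | rfl | hx
        · exact h6 x (Or.inl hx)
        · exact h6 _ (Or.inr (Or.inl rfl))
        · exact ha2
        · exact h6 _ (Or.inr (Or.inl rfl))
        · exact h6 x (Or.inr (Or.inr hx))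
      · rw [hw]
        simp only [List.length_append, List.length_cons]
        omega
      · have h7 : w.toFinset = insert u (a ++ v :: b).toFinset := by
          rw [hw]
          ext x
          simp only [List.mem_toFinset, List.mem_append, List.mem_cons, Finset.mem_insert]
          tauto
        rw [h7, Finset.card_insert_of_notMem, h4]
        rw [List.mem_toFinset]
        exact hd2'
    -- the head
    have hhead : ∃ l', a ++ v :: u :: v :: b = p :: l' := by
      cases a with
      | nil =>
        rw [List.nil_append] at hab ⊢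
        rw [List.cons.injEq] at hab
        exact ⟨u :: v :: b, by rw [← hab.1]⟩
      | cons a0 a1 =>
        rw [List.cons_append, List.cons.injEq] at hab
        exact ⟨a1 ++ v :: u :: v :: b, by rw [List.cons_append, ← hab.1]⟩
    obtain ⟨l', hl'⟩ := hhead
    obtain ⟨k1, k2, k3, k4⟩ := key _ hl'.symm
    refine ⟨l', k1, k2, ?_, k4⟩
    rw [List.length_cons, List.length_cons] at k3
    omega

open Classical in
/-- a component which meets every line is large -/
lemma comp_card {D : ℕ} (A : Finset (Fin D → ZMod M)) (i : Fin D)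
    (c : (gA A).ConnectedComponent)
    (hc : ∀ B : Fin D → ZMod M, ∃ q ∈ A, (gA A).connectedComponentMk q = c ∧
      ∀ j, j ≠ i → q j = B j) :
    M ^ (D - 1) ≤ (A.filter fun q => (gA A).connectedComponentMk q = c).card := by
  have h1 : (Finset.univ : Finset (Fin D → ZMod M)) ⊆
      ((A.filter fun q => (gA A).connectedComponentMk q = c) ×ˢ (Finset.univ : Finset (ZMod M))).image
        fun x => Function.update x.1 i x.2 := by
    intro B _
    obtain ⟨q, hq, hq1, hq2⟩ := hc B
    rw [Finset.mem_image]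
    refine ⟨(q, B i), Finset.mem_product.2 ⟨Finset.mem_filter.2 ⟨hq, hq1⟩, Finset.mem_univ _⟩, ?_⟩
    funext j
    by_cases hj : j = i
    · subst hj; simp
    · simp [hj, hq2 j hj]
  have h2 := (Finset.card_le_card h1).trans Finset.card_image_le
  rw [Finset.card_product, Finset.card_univ, Finset.card_univ, Fintype.card_fun, ZMod.card,
    Fintype.card_fin] at h2
  have hM : 0 < M := Nat.pos_of_ne_zero (NeZero.ne M)
  have hD : M ^ D = M ^ (D - 1) * M := by
    rw [← pow_succ]
    congr 1
    have : 0 < D := Fin.pos i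
    omega
  rw [hD] at h2
  exact Nat.le_of_mul_le_mul_right h2 hM

open Classical in
/-- the walk -/
theorem walk_of_topo {C : Type*} [CommGroup C] (A : Finset (Fin D → ZMod M))
    (lam : (Fin D → ZMod M) → C) (k : Fin D → C)
    (hg : ∀ i B, B ∉ A → up i B ∉ A → lam B = lam (up i B) * (if B i = -1 then k i else 1))
    (hk : ∃ i, k i ≠ 1) :
    ∃ (p : Fin D → ZMod M), ∃ w ∈ Wk (2 * (M ^ (D - 1) - 1)) p,
      w.toFinset.card = M ^ (D - 1) ∧ ∀ x ∈ w.toFinset, x ∈ A := by
  obtain ⟨i, hi⟩ := hk
  obtain ⟨c, hc⟩ := topo A lam k hg i hi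
  obtain ⟨p, hp, hpc, _⟩ := hc fun _ => 0
  have h1 := comp_card A i c hc
  rw [← hpc] at h1
  have hM : 0 < M := Nat.pos_of_ne_zero (NeZero.ne M)
  obtain ⟨l, h2, h3, h4, h5⟩ := cover A p hp (M ^ (D - 1)) (Nat.one_le_pow _ _ hM) h1
  refine ⟨p, p :: l, ?_, h5, fun x hx => h3 x (List.mem_toFinset.1 hx)⟩
  rw [← h4]
  exact mem_Wk l p h2

end

end Pool.Agent.H991.VF
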