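import Mathlib
import Pool.Agent.H991.DC.Sym
import Pool.Agent.H991.DC.Evt

/-!
# Twisted partition functions of the torus `(ℤ/l)^D × ℤ/t`
-/

open MeasureTheory Finset
open Pool.Agent.N899.SB
open Pool.Agent.H991.DC

namespace Pool.Agent.H991.VF

noncomputable section

section mz

variable {D l t : ℕ} [NeZero l] [NeZero t] {G : Type*} [Group G]

/-- the twist at a plaquette -/
def tw (k : Fin D → Subgroup.center G) (p : St D l t) (a b : Fin (D + 1)) : G :=
  if b = Fin.last D ∧ p.2 = 0 then
    ((Fin.lastCases (motive := fun _ => Subgroup.center G) 1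
      (fun i => if p.1 i = -1 then k i else 1) a : Subgroup.center G) : G)
  else 1

/-- the action with a twist -/
def at' (k : Fin D → Subgroup.center G) (we : G → ℝ) (U : St D l t × Fin (D + 1) → G) : ℝ :=
  ∑ p, ∑ a, ∑ b, if a < b then we (tw k p a b * pq (ev D l t) U p a b) else 0

/-- the time links at the time `0` are multiplied by elements of the centre -/
def mz (c : (Fin D → ZMod l) → Subgroup.center G) (U : St D l t × Fin (D + 1) → G) :
    St D l t × Fin (D + 1) → G :=
  fun e => if e.2 = Fin.last D ∧ e.1.2 = 0 then (c e.1.1 : G) * U e else U e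

omit [NeZero l] [NeZero t] in
lemma mz_mz (c c' : (Fin D → ZMod l) → Subgroup.center G) (U : St D l t × Fin (D + 1) → G) :
    mz c (mz c' U) = mz (fun x => c x * c' x) U := by
  funext e
  unfold mz
  by_cases h : e.2 = Fin.last D ∧ e.1.2 = 0
  · simp only [if_pos h, Subgroup.coe_mul, mul_assoc]
  · simp only [if_neg h]

omit [NeZero l] [NeZero t] in
lemma mz_one (U : St D l t × Fin (D + 1) → G) : mz (fun _ => 1) U = U := by
  funext e
  unfold mz
  split_ifs <;> simp

omit [NeZero l] [NeZero t] in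
lemma pq_mz_ne (c : (Fin D → ZMod l) → Subgroup.center G) (U : St D l t × Fin (D + 1) → G)
    (p : St D l t) {a b : Fin (D + 1)} (hab : a < b) (h : ¬ (b = Fin.last D ∧ p.2 = 0)) :
    pq (ev D l t) (mz c U) p a b = pq (ev D l t) U p a b := by
  have ha : a ≠ Fin.last D := (lt_of_lt_of_le hab (Fin.le_last b)).ne
  by_cases hb : b = Fin.last D
  · have h2 : p.2 ≠ 0 := fun h' => h ⟨hb, h'⟩
    have h1 : (p + ev D l t a).2 = p.2 := by
      obtain ⟨i, rfl⟩ : ∃ i : Fin D, a = i.castSucc := ⟨a.castPred ha, (Fin.castSucc_castPred a ha).symm⟩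
      rw [ev_cast]
      simp
    subst hb
    unfold pq mz
    simp only [ha, false_and, if_false, true_and, h1, h2]
  · unfold pq mz
    simp only [ha, hb, false_and, if_false]

omit [NeZero l] [NeZero t] in
lemma pq_mz (c : (Fin D → ZMod l) → Subgroup.center G) (U : St D l t × Fin (D + 1) → G)
    (p : St D l t) (i : Fin D) (h2 : p.2 = 0) :
    pq (ev D l t) (mz c U) p i.castSucc (Fin.last D) =
      ((c (p.1 + Pi.single i 1) * (c p.1)⁻¹ : Subgroup.center G) : G) *
        pq (ev D l t) U p i.castSucc (Fin.last D) := by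
  have ha : i.castSucc ≠ Fin.last D := (Fin.castSucc_lt_last i).ne
  have h1 : (p + ev D l t i.castSucc).2 = 0 := by
    rw [ev_cast]
    simp [h2]
  have h3 : (p + ev D l t i.castSucc).1 = p.1 + Pi.single i 1 := by
    rw [ev_cast]
    rfl
  unfold pq mz
  simp only [ha, false_and, if_false, true_and, h1, h2, h3, if_true]
  rw [_root_.mul_inv_rev, Subgroup.coe_mul, Subgroup.coe_inv]
  obtain ⟨z, hz⟩ : ∃ z, z = c (p.1 + Pi.single i 1) := ⟨_, rfl⟩
  obtain ⟨z', hz'⟩ : ∃ z', z' = c p.1 := ⟨_, rfl⟩
  rw [← hz, ← hz']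
  have hc : ∀ g : G, g * (z : G) = z * g := fun g => Subgroup.mem_center_iff.1 z.2 g
  have hc' : ∀ g : G, g * (z' : G)⁻¹ = (z' : G)⁻¹ * g := fun g =>
    Subgroup.mem_center_iff.1 (inv_mem z'.2) g
  rw [← mul_assoc (U (p, i.castSucc)), hc, ← mul_assoc _ _ ((z' : G)⁻¹), hc']
  simp only [mul_assoc]
  rw [← mul_assoc (z' : G)⁻¹, ← mul_assoc (z : G), ← hc (z' : G)⁻¹]

omit [NeZero l] [NeZero t] in
/-- the values of the twist -/
lemma tw_cast (k : Fin D → Subgroup.center G) (p : St D l t) (i : Fin D) (h2 : p.2 = 0) :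
    tw k p i.castSucc (Fin.last D) = ((if p.1 i = -1 then k i else 1 : Subgroup.center G) : G) := by
  unfold tw
  rw [if_pos ⟨rfl, h2⟩, Fin.lastCases_castSucc]

omit [NeZero l] [NeZero t] in
lemma tw_ne (k : Fin D → Subgroup.center G) (p : St D l t) {a b : Fin (D + 1)}
    (h : ¬ (b = Fin.last D ∧ p.2 = 0)) : tw k p a b = 1 := by
  unfold tw
  rw [if_neg h]

omit [NeZero l] [NeZero t] in
lemma tw_one (p : St D l t) (a b : Fin (D + 1)) :
    tw (fun _ => (1 : Subgroup.center G)) p a b = 1 := by
  unfold tw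
  split_ifs with h
  · refine Fin.lastCases ?_ (fun i => ?_) a
    · rw [Fin.lastCases_last]; rfl
    · rw [Fin.lastCases_castSucc]; simp
  · rfl

omit [NeZero l] [NeZero t] in
lemma tw_self {k : Fin D → Subgroup.center G} {i : Fin D} (hk : k i = 1) (p : St D l t)
    (b : Fin (D + 1)) : tw k p i.castSucc b = 1 := by
  unfold tw
  split_ifs with h
  · rw [Fin.lastCases_castSucc]; simp [hk]
  · rfl

lemma at_one (we : G → ℝ) (U : St D l t × Fin (D + 1) → G) :
    at' (fun _ => 1) we U = ac we (ev D l t) U := by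
  unfold at' ac
  simp only [tw_one, one_mul]

end mz

section split

variable {D l t : ℕ} [NeZero l] [NeZero t] {G : Type*} [Group G]

/-- the action of one half -/
def Sk (k : Fin D → Subgroup.center G) (we : G → ℝ) (w : ℕ) (i : Fin D)
    (U : St D l t × Fin (D + 1) → G) : ℝ :=
  ∑ p, ∑ a, ∑ b, if a < b then cf w i p a b * we (tw k p a b * pq (ev D l t) U p a b) else 0

/-- the links of one plane are multiplied -/
abbrev ta (i : Fin D) (z : Subgroup.center G) (U : St D l t × Fin (D + 1) → G) :
    St D l t × Fin (D + 1) → G := mz (fun x => if x i = 0 then z else 1) U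

omit [NeZero l] [NeZero t] in
lemma pq_Th_ne (i : Fin D) (U : St D l t × Fin (D + 1) → G) (p : St D l t) {a b : Fin (D + 1)}
    (ha : a ≠ i.castSucc) (hb : b ≠ i.castSucc) :
    pq (ev D l t) (Th i U) p a b = pq (ev D l t) U (th i p) a b := by
  unfold pq
  rw [Th_ne i U _ ha, Th_ne i U _ hb, Th_ne i U _ ha, Th_ne i U _ hb, th_add, th_add,
    th_ev_ne i b hb, th_ev_ne i a ha]

omit [NeZero l] [NeZero t] in
lemma tw_th (k : Fin D → Subgroup.center G) (i : Fin D) (p : St D l t) {a b : Fin (D + 1)}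
    (ha : a ≠ i.castSucc) : tw k (th i p) a b = tw k p a b := by
  unfold tw
  have h2 : (th i p).2 = p.2 := rfl
  rw [h2]
  congr 2
  refine Fin.lastCases ?_ (fun j hj => ?_) a ha
  · intro _
    rw [Fin.lastCases_last, Fin.lastCases_last]
  · have hj' : j ≠ i := fun h => hj (by rw [h])
    rw [Fin.lastCases_castSucc, Fin.lastCases_castSucc]
    have h1 : (th i p).1 j = p.1 j := by
      unfold th
      simp [hj']
    rw [h1]

omit [NeZero l] [NeZero t] in
lemma we_refl_tw (we : G → ℝ) (hi : ∀ g, we g⁻¹ = we g) (hc : ∀ g h, we (h * g * h⁻¹) = we g)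
    {k : Fin D → Subgroup.center G} {i : Fin D} (hk : k i = 1) (V : St D l t × Fin (D + 1) → G)
    (p : St D l t) (a b : Fin (D + 1)) (hab : a < b) :
    we (tw k (ro i a b p) a b * pq (ev D l t) (Th i V) (ro i a b p) a b) =
      we (tw k p a b * pq (ev D l t) V p a b) := by
  by_cases ha : a = i.castSucc
  · subst ha
    rw [tw_self hk, tw_self hk, one_mul, one_mul, we_refl we hi hc i V _ _ b hab.ne, ro_ro]
  · by_cases hb : b = i.castSucc
    · subst hb
      have hl : ¬ (i.castSucc = Fin.last D) := (Fin.castSucc_lt_last i).ne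
      rw [tw_ne k _ (fun h => hl h.1), tw_ne k _ (fun h => hl h.1), one_mul, one_mul,
        we_refl we hi hc i V _ a _ hab.ne, ro_ro]
    · have hr : ro i a b p = th i p := by
        unfold ro
        rw [if_neg (by tauto)]
      rw [hr, tw_th k i p ha, pq_Th_ne i V _ ha hb, th_th]

lemma Sk_Th (we : G → ℝ) (hi : ∀ g, we g⁻¹ = we g) (hc : ∀ g h, we (h * g * h⁻¹) = we g)
    {k : Fin D → Subgroup.center G} {w : ℕ} {i : Fin D} (hk : k i = 1)
    (V : St D l t × Fin (D + 1) → G) :
    Sk k we w i (Th i V) = ∑ p : St D l t, ∑ a, ∑ b, if a < b then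
      cf w i (ro i a b p) a b * we (tw k p a b * pq (ev D l t) V p a b) else 0 := by
  unfold Sk
  rw [Finset.sum_comm]
  conv_rhs => rw [Finset.sum_comm]
  refine Finset.sum_congr rfl fun a _ => ?_
  rw [Finset.sum_comm]
  conv_rhs => rw [Finset.sum_comm]
  refine Finset.sum_congr rfl fun b _ => ?_
  by_cases hab : a < b
  · simp only [if_pos hab]
    let e : St D l t ≃ St D l t := ⟨ro i a b, ro i a b, ro_ro i a b, ro_ro i a b⟩
    rw [← Equiv.sum_comp e]
    refine Finset.sum_congr rfl fun p _ => ?_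
    change cf w i (ro i a b p) a b * we (tw k (ro i a b p) a b *
      pq (ev D l t) (Th i V) (ro i a b p) a b) = _
    rw [we_refl_tw we hi hc hk V p a b hab]
  · simp only [if_neg hab]

/-- the action is divided by the two planes -/
lemma split (we : G → ℝ) (hi : ∀ g, we g⁻¹ = we g) (hc : ∀ g h, we (h * g * h⁻¹) = we g)
    {w : ℕ} (hl : l = 2 * w) (k : Fin D → Subgroup.center G) (i : Fin D)
    (U : St D l t × Fin (D + 1) → G) :
    at' k we U = Sk (Function.update k i 1) we w i U +
      Sk (Function.update k i 1) we w i (Th i (ta i (k i) U)) := by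
  have hw : 0 < w := by
    have := NeZero.ne l
    omega
  have hm1 : (-1 : ZMod l).val = 2 * w - 1 := by
    have h := val_neg_sub hl (0 : ZMod l)
    simpa using h
  have hne : (-1 : ZMod l) ≠ 0 := by
    intro h
    rw [h, ZMod.val_zero] at hm1
    omega
  rw [Sk_Th we hi hc (by rw [Function.update_self])]
  unfold at' Sk
  rw [← Finset.sum_add_distrib]
  refine Finset.sum_congr rfl fun p _ => ?_
  rw [← Finset.sum_add_distrib]
  refine Finset.sum_congr rfl fun a _ => ?_
  rw [← Finset.sum_add_distrib]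
  refine Finset.sum_congr rfl fun b _ => ?_
  by_cases hab : a < b
  swap
  · simp only [if_neg hab, add_zero]
  simp only [if_pos hab]
  by_cases h : b = Fin.last D ∧ p.2 = 0
  swap
  · rw [tw_ne k p h, tw_ne _ p h, pq_mz_ne _ U p hab h, ← add_mul, cf_ro hl, one_mul, one_mul]
  obtain ⟨hb, h2⟩ := h
  subst hb
  obtain ⟨j, rfl⟩ : ∃ j : Fin D, a = j.castSucc :=
    ⟨a.castPred hab.ne, (Fin.castSucc_castPred a hab.ne).symm⟩
  rw [pq_mz _ U p j h2, tw_cast k p j h2, tw_cast _ p j h2]
  by_cases hj : j = i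
  · subst hj
    rw [Function.update_self]
    simp only [Pi.add_apply, Pi.single_eq_same, ite_self, OneMemClass.coe_one, one_mul]
    by_cases hp : p.1 j = -1
    · have c1 : cf w j p j.castSucc (Fin.last D) = 0 := by
        unfold cf
        rw [if_pos (Or.inl rfl), hp, hm1, if_neg (by omega)]
      have c2 := cf_ro hl j p j.castSucc (Fin.last D)
      rw [c1, zero_add] at c2
      rw [c1, c2, zero_mul, one_mul, zero_add, hp]
      simp [hne]
    · by_cases hp0 : p.1 j = 0
      · have c1 : cf w j (ro j j.castSucc (Fin.last D) p) j.castSucc (Fin.last D) = 0 := by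
          unfold cf ro
          rw [if_pos (Or.inl rfl), if_pos (Or.inl rfl)]
          have e : ((th j p - ev D l t j.castSucc).1 j) = -1 := by
            rw [ev_cast]
            simp [th, hp0]
          rw [e, hm1, if_neg (by omega)]
        have c2 := cf_ro hl j p j.castSucc (Fin.last D)
        rw [c1, add_zero] at c2
        rw [c1, c2, zero_mul, one_mul, add_zero, if_neg hp]
        simp
      · have hp1 : p.1 j + 1 ≠ 0 := fun h => hp (eq_neg_of_add_eq_zero_left h)
        rw [if_neg hp, if_neg hp1, if_neg hp0]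
        simp only [OneMemClass.coe_one, one_mul, inv_one]
        rw [← add_mul, cf_ro hl, one_mul]
  · have e1 : (p.1 + (Pi.single j (1 : ZMod l) : Fin D → ZMod l)) i = p.1 i := by
      simp [Pi.single_eq_of_ne (Ne.symm hj)]
    simp only [e1, Function.update_of_ne hj, mul_inv_cancel, OneMemClass.coe_one, one_mul]
    rw [← add_mul, cf_ro hl, one_mul]

end split

end

end Pool.Agent.H991.VF
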