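import Mathlib
import Pool.Agent.H991.VF.Tw

/-!
# The Schwarz inequality for twisted partition functions with bad blocks
-/

open MeasureTheory Finset
open Pool.Agent.N899.SB
open Pool.Agent.H991.DC
open scoped IsMulCommutative

namespace Pool.Agent.H991.VF

noncomputable section

section schwarz

variable {D l t : ℕ} [NeZero l] [NeZero t] {G : Type*} [Group G]

omit [NeZero l] [NeZero t] in
lemma Th_mz (i : Fin D) (c c' : (Fin D → ZMod l) → Subgroup.center G)
    (h : ∀ x, c (Function.update x i (-x i)) = c' x) (V : St D l t × Fin (D + 1) → G) :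
    Th i (mz c V) = mz c' (Th i V) := by
  funext e
  obtain ⟨p, j⟩ := e
  by_cases hj : j = i.castSucc
  · subst hj
    have hl : ¬ (i.castSucc = Fin.last D) := (Fin.castSucc_lt_last i).ne
    unfold mz
    simp only [hl, false_and, if_false]
    rw [Th_self, Th_self]
    simp only [hl, false_and, if_false]
  · unfold mz
    rw [Th_ne i _ _ hj]
    simp only
    rw [Th_ne i V _ hj]
    have h2 : (th i p).2 = p.2 := rfl
    have h1 : (th i p).1 = Function.update p.1 i (-p.1 i) := rfl
    rw [h2, h1, h]

omit [NeZero l] [NeZero t] in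
lemma Th_ta (i : Fin D) (z : Subgroup.center G) (V : St D l t × Fin (D + 1) → G) :
    Th i (ta i z V) = ta i z (Th i V) := by
  refine Th_mz i _ _ (fun x => ?_) V
  simp

variable [MeasurableSpace G] [MeasurableMul₂ G] [MeasurableInv G] (μ : Measure G)
  [IsProbabilityMeasure μ] [μ.IsInvInvariant] [μ.IsMulLeftInvariant]

omit [μ.IsInvInvariant] [MeasurableInv G] in
lemma mz_mp (c : (Fin D → ZMod l) → Subgroup.center G) :
    MeasurePreserving (mz (t := t) c) (Measure.pi fun _ => μ) (Measure.pi fun _ => μ) := by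
  have h := measurePreserving_pi (fun _ : St D l t × Fin (D + 1) => μ)
    (fun _ : St D l t × Fin (D + 1) => μ)
    (f := fun e x => if e.2 = Fin.last D ∧ e.1.2 = 0 then (c e.1.1 : G) * x else x) (by
      intro e
      by_cases he : e.2 = Fin.last D ∧ e.1.2 = 0
      · simp only [he, if_true]
        exact measurePreserving_mul_left μ _
      · simp only [he, if_false]
        exact MeasurePreserving.id μ)
  exact h

/-- the Schwarz inequality with a twist in the plane of the reflection -/
theorem schw {w : ℕ} (hl : l = 2 * w) (i : Fin D) (z : Subgroup.center G)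
    (f g : (St D l t × Fin (D + 1) → G) → ℝ) (hf : Measurable f) (hg : Measurable g) {C : ℝ}
    (hfC : ∀ U, |f U| ≤ C) (hgC : ∀ U, |g U| ≤ C)
    (hfH : ∀ U V, (∀ e, Hf w i e → U e = V e) → f U = f V)
    (hgH : ∀ U V, (∀ e, Hf w i e → U e = V e) → g U = g V) :
    (∫ U, f U * g (Th i (ta i z U)) ∂(Measure.pi fun _ => μ)) ^ 2 ≤
      (∫ U, f U * f (Th i U) ∂(Measure.pi fun _ => μ)) *
      ∫ U, g U * g (Th i U) ∂(Measure.pi fun _ => μ) := by
  have mp := mz_mp (D := D) (l := l) (t := t) μ (fun x => if x i = 0 then z else 1)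
  have hrp := rp (G := G) μ (sg i) (sg_sg i) (ivf i) (iv_sg i) (Hf w i) (Hf1 hl i)
    (fun e h1 h2 => Hf2 hl i e h1 h2) f (fun U => g (ta i z U)) hf (hg.comp mp.measurable)
    hfC (fun U => hgC _) hfH (by
      intro U V h
      refine hgH _ _ fun e he => ?_
      unfold ta mz
      rw [h e he])
  have e1 : ∀ U, g (ta i z (refl (sg i) (ivf i) U)) = g (Th i (ta i z U)) := by
    intro U
    rw [Th_ta]
  simp only [e1] at hrp
  refine hrp.trans (le_of_eq ?_)
  congr 1
  have hr : Measurable (refl (G := G) (sg i) (ivf i) : (St D l t × Fin (D + 1) → G) → _) :=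
    (refl_mp μ (sg i) (sg_sg i) (ivf i)).measurable
  have hm : Measurable fun U : St D l t × Fin (D + 1) → G => g U * g (Th i U) :=
    hg.mul (hg.comp hr)
  have h := integral_map (μ := Measure.pi fun _ : St D l t × Fin (D + 1) => μ)
    (φ := ta (t := t) i z) mp.measurable.aemeasurable
    (f := fun U : St D l t × Fin (D + 1) → G => g U * g (Th i U)) hm.aestronglyMeasurable
  rw [mp.map_eq] at h
  rw [h]

end schwarz

/-! ### the blocks -/

/-- events of the blocks -/
structure Bd (D t L h : ℕ) [NeZero (L * (2 * h))] [NeZero t] (G : Type*) [Group G]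
    [MeasurableSpace G] where
  P : (Fin D → ZMod (2 * h)) → (St D (L * (2 * h)) t × Fin (D + 1) → G) → Prop
  meas : ∀ B, MeasurableSet {U | P B U}
  loc : ∀ (B : Fin D → ZMod (2 * h)) (U V : _),
    (∀ (r : Fin D → ℕ) (τ : ZMod t) (j : Fin (D + 1)), (∀ i, r i ≤ L) →
      (∀ i : Fin D, j = i.castSucc → r i < L) → U ((DC.em L B r, τ), j) = V ((DC.em L B r, τ), j)) →
    P B U → P B V
  refl : ∀ (i : Fin D) (B : Fin D → ZMod (2 * h)) (U : _),
    P B (Th i U) ↔ P (Function.update B i (-1 - B i)) U

section blocks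

variable {D t L h : ℕ} [NeZero (L * (2 * h))] [NeZero t] [NeZero h] [NeZero (2 * h)]
variable {G : Type*} [Group G]

/-- the central factor seen by a block -/
def cz (k : Fin D → Subgroup.center G) (B : Fin D → ZMod (2 * h))
    (x : Fin D → ZMod (L * (2 * h))) : Subgroup.center G :=
  ∏ i, if B i = -1 ∧ x i = 0 then k i else 1

/-- the configuration seen by a block -/
abbrev tB (k : Fin D → Subgroup.center G) (B : Fin D → ZMod (2 * h))
    (U : St D (L * (2 * h)) t × Fin (D + 1) → G) : St D (L * (2 * h)) t × Fin (D + 1) → G :=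
  mz (cz k B) U

omit [NeZero (L * (2 * h))] [NeZero h] [NeZero (2 * h)] in
lemma cz_one (B : Fin D → ZMod (2 * h)) (x : Fin D → ZMod (L * (2 * h))) :
    cz (fun _ => (1 : Subgroup.center G)) B x = 1 := by
  unfold cz
  simp

omit [NeZero (L * (2 * h))] [NeZero h] [NeZero (2 * h)] in
lemma cz_update (k : Fin D → Subgroup.center G) (i : Fin D) (B : Fin D → ZMod (2 * h))
    (x : Fin D → ZMod (L * (2 * h))) :
    cz k B x = cz (Function.update k i 1) B x * (if B i = -1 ∧ x i = 0 then k i else 1) := by
  unfold cz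
  rw [← Finset.prod_erase_mul _ _ (Finset.mem_univ i),
    ← Finset.prod_erase_mul (s := Finset.univ) (a := i)
      (f := fun j => if B j = -1 ∧ x j = 0 then Function.update k i 1 j else 1) (Finset.mem_univ i)]
  rw [Function.update_self]
  congr 1
  rw [show (if B i = -1 ∧ x i = 0 then (1 : Subgroup.center G) else 1) = 1 by split_ifs <;> rfl,
    mul_one]
  refine Finset.prod_congr rfl fun j hj => ?_
  rw [Function.update_of_ne (Finset.ne_of_mem_erase hj)]

omit [NeZero (L * (2 * h))] [NeZero h] [NeZero (2 * h)] in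
lemma cz_refl {k : Fin D → Subgroup.center G} {i : Fin D} (hk : k i = 1)
    (B : Fin D → ZMod (2 * h)) (x : Fin D → ZMod (L * (2 * h))) :
    cz k B (Function.update x i (-x i)) = cz k (Function.update B i (-1 - B i)) x := by
  unfold cz
  refine Finset.prod_congr rfl fun j _ => ?_
  by_cases hj : j = i
  · subst hj
    rw [hk]
    split_ifs <;> rfl
  · rw [Function.update_of_ne hj, Function.update_of_ne hj]

lemma bval_ne {B : ZMod (2 * h)} (hB : B.val < h) : B ≠ -1 := by
  intro hc
  have := val_refl (0 : ZMod (2 * h))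
  simp only [sub_zero, ZMod.val_zero] at this
  rw [hc, this] at hB
  omega

lemma em_zero (hL : 0 < L) {B : Fin D → ZMod (2 * h)} {r : Fin D → ℕ} {i : Fin D}
    (hB : ¬ (B i).val < h) (hr : r i ≤ L) (he : DC.em L B r i = 0) : B i = -1 := by
  unfold DC.em at he
  rw [ZMod.natCast_eq_zero_iff] at he
  have h1 := ZMod.val_lt (B i)
  have hh : 0 < h := Nat.pos_of_ne_zero (NeZero.ne h)
  obtain ⟨c, hc⟩ := he
  have h2 : 0 < L * (B i).val := Nat.mul_pos hL (by omega)
  have h3 : L * (B i).val + r i ≤ L * (2 * h) := by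
    calc L * (B i).val + r i ≤ L * (B i).val + L := by omega
      _ = L * ((B i).val + 1) := by ring
      _ ≤ L * (2 * h) := Nat.mul_le_mul_left _ (by omega)
  have h4 : 1 ≤ c := by
    rcases Nat.eq_zero_or_pos c with h5 | h5
    · rw [h5] at hc; omega
    · exact h5
  have h5 : L * (2 * h) * 1 ≤ L * (2 * h) * c := Nat.mul_le_mul_left _ h4
  have h6 : L * (2 * h) ≤ L * ((B i).val + 1) := by
    calc L * (2 * h) ≤ L * (B i).val + r i := by omega
      _ ≤ L * (B i).val + L := by omega
      _ = _ := by ring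
  have h7 : 2 * h ≤ (B i).val + 1 := Nat.le_of_mul_le_mul_left h6 hL
  have h8 : (-1 : ZMod (2 * h)).val = 2 * h - 1 := by
    have := val_refl (0 : ZMod (2 * h))
    simpa using this
  apply ZMod.val_injective
  rw [h8]
  omega

variable [MeasurableSpace G]

/-- the half-space locality -/
lemma Bd.half (E : Bd D t L h G) (i : Fin D) (B : Fin D → ZMod (2 * h))
    (U V : St D (L * (2 * h)) t × Fin (D + 1) → G) (hB : (B i).val < h)
    (hUV : ∀ e, Hf (L * h) i e → U e = V e) (hU : E.P B U) : E.P B V := by
  refine E.loc B U V (fun r τ j hr hj => hUV _ ?_) hU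
  have hle : L * (B i).val + L ≤ L * h := by
    calc L * (B i).val + L = L * ((B i).val + 1) := by ring
      _ ≤ L * h := Nat.mul_le_mul_left _ hB
  have hv := em_val B r i hB (hr i)
  have hri := hr i
  unfold Hf
  simp only
  rw [hv]
  split_ifs with h1
  · have := hj i h1
    omega
  · omega

open Classical in
/-- the indicator of the event that all blocks of `A` are bad -/
def J (E : Bd D t L h G) (k : Fin D → Subgroup.center G) (A : Finset (Fin D → ZMod (2 * h)))
    (U : St D (L * (2 * h)) t × Fin (D + 1) → G) : ℝ :=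
  if ∀ B ∈ A, E.P B (tB k B U) then 1 else 0

lemma J_nonneg (E : Bd D t L h G) (k : Fin D → Subgroup.center G)
    (A : Finset (Fin D → ZMod (2 * h))) (U : St D (L * (2 * h)) t × Fin (D + 1) → G) :
    0 ≤ J E k A U := by
  unfold J
  split_ifs <;> norm_num

lemma J_le (E : Bd D t L h G) (k : Fin D → Subgroup.center G)
    (A : Finset (Fin D → ZMod (2 * h))) (U : St D (L * (2 * h)) t × Fin (D + 1) → G) :
    J E k A U ≤ 1 := by
  unfold J
  split_ifs <;> norm_num

/-- the blocks of one side, reflected -/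
def hP (i : Fin D) (A : Finset (Fin D → ZMod (2 * h))) : Finset (Fin D → ZMod (2 * h)) :=
  A.filter fun B => (B i).val < h

def hN (i : Fin D) (A : Finset (Fin D → ZMod (2 * h))) : Finset (Fin D → ZMod (2 * h)) :=
  (A.filter fun B => ¬ (B i).val < h).image fun B => Function.update B i (-1 - B i)

def rB (i : Fin D) (B : Fin D → ZMod (2 * h)) : Fin D → ZMod (2 * h) :=
  Function.update B i (-1 - B i)

omit [NeZero h] [NeZero (2 * h)] in
lemma rB_rB (i : Fin D) (B : Fin D → ZMod (2 * h)) : rB i (rB i B) = B := by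
  simp [rB]

lemma rB_lt (i : Fin D) (B : Fin D → ZMod (2 * h)) :
    (rB i B i).val < h ↔ ¬ (B i).val < h := by
  unfold rB
  rw [Function.update_self, val_refl]
  have := ZMod.val_lt (B i)
  omega

/-- the event is divided -/
lemma J_split (hL : 0 < L) (E : Bd D t L h G) (k : Fin D → Subgroup.center G) (i : Fin D)
    (A : Finset (Fin D → ZMod (2 * h))) (U : St D (L * (2 * h)) t × Fin (D + 1) → G) :
    J E k A U = J E (Function.update k i 1) (hP i A) U *
      J E (Function.update k i 1) (hN i A) (Th i (ta i (k i) U)) := by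
  classical
  have h1 : ∀ B : Fin D → ZMod (2 * h), (B i).val < h →
      (tB k B U : St D (L * (2 * h)) t × Fin (D + 1) → G) = tB (Function.update k i 1) B U := by
    intro B hB
    unfold tB
    congr 1
    funext x
    rw [cz_update k i, if_neg (fun hc => bval_ne hB hc.1), mul_one]
  have h2 : ∀ B : Fin D → ZMod (2 * h), ¬ (B i).val < h →
      (E.P B (tB k B U) ↔ E.P (rB i B) (tB (Function.update k i 1) (rB i B)
        (Th i (ta i (k i) U)))) := by
    intro B hB
    have e1 : Th i (tB (Function.update k i 1) B (ta i (k i) U)) =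
        tB (Function.update k i 1) (rB i B) (Th i (ta i (k i) U)) :=
      Th_mz i _ _ (fun x => cz_refl (by rw [Function.update_self]) B x) _
    rw [← e1, E.refl]
    have e0 : Function.update (rB i B) i (-1 - rB i B i) = B := rB_rB i B
    rw [e0]
    have e2 : ∀ (r : Fin D → ℕ) (τ : ZMod t) (j : Fin (D + 1)), (∀ i, r i ≤ L) →
        (tB k B U : St D (L * (2 * h)) t × Fin (D + 1) → G) ((DC.em L B r, τ), j) =
        tB (Function.update k i 1) B (ta i (k i) U) ((DC.em L B r, τ), j) := by
      intro r τ j hr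
      unfold tB ta
      rw [mz_mz]
      unfold mz
      simp only
      rw [cz_update k i]
      have e3 : (if B i = -1 ∧ DC.em L B r i = 0 then k i else 1) =
          if DC.em L B r i = 0 then k i else 1 := by
        by_cases h0 : DC.em L B r i = 0
        · rw [if_pos ⟨em_zero hL hB (hr i) h0, h0⟩, if_pos h0]
        · rw [if_neg (fun hc => h0 hc.2), if_neg h0]
      rw [e3]
    exact ⟨E.loc B _ _ fun r τ j hr _ => e2 r τ j hr, E.loc B _ _ fun r τ j hr _ => (e2 r τ j hr).symm⟩
  have h3 : (∀ B ∈ A, E.P B (tB k B U)) ↔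
      ((∀ B ∈ hP i A, E.P B (tB (Function.update k i 1) B U)) ∧
      ∀ B ∈ hN i A, E.P B (tB (Function.update k i 1) B (Th i (ta i (k i) U)))) := by
    constructor
    · intro hA
      refine ⟨fun B hB => ?_, fun B hB => ?_⟩
      · obtain ⟨hB1, hB2⟩ := Finset.mem_filter.1 hB
        rw [← h1 B hB2]
        exact hA B hB1
      · obtain ⟨B', hB', rfl⟩ := Finset.mem_image.1 hB
        obtain ⟨hB1, hB2⟩ := Finset.mem_filter.1 hB'
        exact (h2 B' hB2).1 (hA B' hB1)
    · rintro ⟨hA1, hA2⟩ B hB
      by_cases hlt : (B i).val < h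
      · rw [h1 B hlt]
        exact hA1 B (Finset.mem_filter.2 ⟨hB, hlt⟩)
      · exact (h2 B hlt).2 (hA2 (rB i B) (Finset.mem_image.2 ⟨B, Finset.mem_filter.2 ⟨hB, hlt⟩, rfl⟩))
  unfold J
  by_cases ha : ∀ B ∈ hP i A, E.P B (tB (Function.update k i 1) B U)
  · by_cases hb : ∀ B ∈ hN i A, E.P B (tB (Function.update k i 1) B (Th i (ta i (k i) U)))
    · rw [if_pos (h3.2 ⟨ha, hb⟩), if_pos ha, if_pos hb, one_mul]
    · rw [if_neg (fun hc => hb (h3.1 hc).2), if_pos ha, if_neg hb, one_mul]
  · rw [if_neg (fun hc => ha (h3.1 hc).1), if_neg ha, zero_mul]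

lemma J_meas (E : Bd D t L h G) [MeasurableMul₂ G] (k : Fin D → Subgroup.center G)
    (A : Finset (Fin D → ZMod (2 * h))) :
    Measurable fun U : St D (L * (2 * h)) t × Fin (D + 1) → G => J E k A U := by
  classical
  unfold J
  refine Measurable.ite ?_ measurable_const measurable_const
  simp only [Set.ofPred_forall]
  refine MeasurableSet.iInter fun B => MeasurableSet.iInter fun _ => ?_
  have hm : Measurable (mz (t := t) (cz (G := G) (L := L) k B)) := by
    refine measurable_pi_lambda _ fun e => ?_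
    unfold mz
    split_ifs
    · exact (measurable_pi_apply e).const_mul _
    · exact measurable_pi_apply e
  exact hm (E.meas B)

end blocks

end

end Pool.Agent.H991.VF
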