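import Mathlib
import Pool.Agent.H991.VF.TwB

/-!
# Bad blocks in a twisted torus
-/

open MeasureTheory Finset
open Pool.Agent.N899.SB
open Pool.Agent.H991.DC
open scoped IsMulCommutative

namespace Pool.Agent.H991.VF

noncomputable section

section loc

variable {D l t : ℕ} [NeZero l] [NeZero t] {G : Type*} [Group G]

omit [NeZero t] in
lemma cf_zero {w : ℕ} (i : Fin D) (p : St D l t) (a b : Fin (D + 1)) (hc : cf w i p a b ≠ 0) :
    (p.1 i).val ≤ w ∧ (a = i.castSucc ∨ b = i.castSucc → (p.1 i).val < w) := by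
  unfold cf at hc
  by_cases h : a = i.castSucc ∨ b = i.castSucc
  · rw [if_pos h] at hc
    by_cases h' : (p.1 i).val < w
    · exact ⟨h'.le, fun _ => h'⟩
    · rw [if_neg h'] at hc
      exact absurd rfl hc
  · rw [if_neg h] at hc
    refine ⟨?_, fun h' => absurd h' h⟩
    by_contra hcon
    push Not at hcon
    apply hc
    rw [if_neg (by omega), if_neg (by omega)]

lemma Sk_loc (k : Fin D → Subgroup.center G) (we : G → ℝ) {w : ℕ} (hl : l = 2 * w) (i : Fin D)
    (U V : St D l t × Fin (D + 1) → G) (h : ∀ e, Hf w i e → U e = V e) :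
    Sk k we w i U = Sk k we w i V := by
  unfold Sk
  refine Finset.sum_congr rfl fun p _ => Finset.sum_congr rfl fun a _ =>
    Finset.sum_congr rfl fun b _ => ?_
  by_cases hab : a < b
  · rw [if_pos hab, if_pos hab]
    by_cases hc : cf w i p a b = 0
    · rw [hc, zero_mul, zero_mul]
    · obtain ⟨h1, h2⟩ := cf_zero i p a b hc
      rw [pq_loc hl i U V h p a b hab.ne h1 h2]
  · rw [if_neg hab, if_neg hab]

lemma Sk_nonneg (k : Fin D → Subgroup.center G) (we : G → ℝ) (h0 : ∀ g, 0 ≤ we g) (w : ℕ)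
    (i : Fin D) (U : St D l t × Fin (D + 1) → G) : 0 ≤ Sk k we w i U := by
  unfold Sk
  refine Finset.sum_nonneg fun p _ => Finset.sum_nonneg fun a _ => Finset.sum_nonneg fun b _ => ?_
  split_ifs
  · refine mul_nonneg ?_ (h0 _)
    unfold cf
    split_ifs <;> norm_num
  · exact le_rfl

lemma at_nonneg (k : Fin D → Subgroup.center G) (we : G → ℝ) (h0 : ∀ g, 0 ≤ we g)
    (U : St D l t × Fin (D + 1) → G) : 0 ≤ at' k we U := by
  unfold at'
  refine Finset.sum_nonneg fun p _ => Finset.sum_nonneg fun a _ => Finset.sum_nonneg fun b _ => ?_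
  split_ifs
  · exact h0 _
  · exact le_rfl

variable [MeasurableSpace G] [MeasurableMul₂ G] [MeasurableInv G]

lemma Sk_meas (k : Fin D → Subgroup.center G) (we : G → ℝ) (hm : Measurable we) (w : ℕ)
    (i : Fin D) : Measurable fun U : St D l t × Fin (D + 1) → G => Sk k we w i U := by
  unfold Sk
  refine Finset.measurable_fun_sum _ fun p _ => Finset.measurable_fun_sum _ fun a _ =>
    Finset.measurable_fun_sum _ fun b _ => ?_
  split_ifs
  · exact (hm.comp ((pq_meas p a b).const_mul _)).const_mul _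
  · exact measurable_const

lemma at_meas (k : Fin D → Subgroup.center G) (we : G → ℝ) (hm : Measurable we) :
    Measurable fun U : St D l t × Fin (D + 1) → G => at' k we U := by
  unfold at'
  refine Finset.measurable_fun_sum _ fun p _ => Finset.measurable_fun_sum _ fun a _ =>
    Finset.measurable_fun_sum _ fun b _ => ?_
  split_ifs
  · exact hm.comp ((pq_meas p a b).const_mul _)
  · exact measurable_const

end loc

section main

variable {D t L h : ℕ} [NeZero (L * (2 * h))] [NeZero t] [NeZero h] [NeZero (2 * h)]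
variable {G : Type*} [Group G] [MeasurableSpace G] [MeasurableMul₂ G] [MeasurableInv G]

/-- the twisted partition function restricted to bad blocks -/
def Ik (μ : Measure G) (E : Bd D t L h G) (k : Fin D → Subgroup.center G) (we : G → ℝ) (β : ℝ)
    (A : Finset (Fin D → ZMod (2 * h))) : ℝ :=
  ∫ U, J E k A U * Real.exp (-(β * at' k we U)) ∂(Measure.pi fun _ => μ)

omit [MeasurableMul₂ G] [MeasurableInv G] in
lemma Ik_nonneg (μ : Measure G) (E : Bd D t L h G) (k : Fin D → Subgroup.center G) (we : G → ℝ)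
    (β : ℝ) (A : Finset (Fin D → ZMod (2 * h))) : 0 ≤ Ik μ E k we β A := by
  unfold Ik
  exact integral_nonneg fun U => mul_nonneg (J_nonneg E k A U) (Real.exp_pos _).le

variable (μ : Measure G) [IsProbabilityMeasure μ] [μ.IsInvInvariant] [μ.IsMulLeftInvariant]

/-- the function of one half -/
def fh (E : Bd D t L h G) (k : Fin D → Subgroup.center G) (we : G → ℝ) (β : ℝ) (i : Fin D)
    (S : Finset (Fin D → ZMod (2 * h))) (U : St D (L * (2 * h)) t × Fin (D + 1) → G) : ℝ :=
  J E k S U * Real.exp (-(β * Sk k we (L * h) i U))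

omit [MeasurableMul₂ G] [MeasurableInv G] in
lemma fh_split (hL : 0 < L) (E : Bd D t L h G) (we : G → ℝ) (hi : ∀ g, we g⁻¹ = we g)
    (hc : ∀ g h, we (h * g * h⁻¹) = we g) (β : ℝ) (k : Fin D → Subgroup.center G) (i : Fin D)
    (A : Finset (Fin D → ZMod (2 * h))) (U : St D (L * (2 * h)) t × Fin (D + 1) → G) :
    J E k A U * Real.exp (-(β * at' k we U)) =
      fh E (Function.update k i 1) we β i (hP i A) U *
      fh E (Function.update k i 1) we β i (hN i A) (Th i (ta i (k i) U)) := by
  have hl : L * (2 * h) = 2 * (L * h) := by ring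
  unfold fh
  rw [J_split hL E k i A U, split we hi hc hl k i U, mul_add, neg_add, Real.exp_add]
  ring

omit [MeasurableMul₂ G] [MeasurableInv G] in
lemma fh_loc (E : Bd D t L h G) (k : Fin D → Subgroup.center G) (we : G → ℝ) (β : ℝ) (i : Fin D)
    (S : Finset (Fin D → ZMod (2 * h))) (hS : ∀ B ∈ S, (B i).val < h)
    (U V : St D (L * (2 * h)) t × Fin (D + 1) → G) (hUV : ∀ e, Hf (L * h) i e → U e = V e) :
    fh E k we β i S U = fh E k we β i S V := by
  have hl : L * (2 * h) = 2 * (L * h) := by ring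
  have h1 : ∀ B ∈ S, (E.P B (tB k B U) ↔ E.P B (tB k B V)) := by
    intro B hB
    constructor
    · refine E.half i B _ _ (hS B hB) fun e he => ?_
      unfold tB mz
      rw [hUV e he]
    · refine E.half i B _ _ (hS B hB) fun e he => ?_
      unfold tB mz
      rw [hUV e he]
  have h2 : (∀ B ∈ S, E.P B (tB k B U)) ↔ ∀ B ∈ S, E.P B (tB k B V) :=
    ⟨fun hA B hB => (h1 B hB).1 (hA B hB), fun hA B hB => (h1 B hB).2 (hA B hB)⟩
  have h3 : J E k S U = J E k S V := by
    unfold J
    by_cases h4 : ∀ B ∈ S, E.P B (tB k B V)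
    · rw [if_pos h4, if_pos (h2.2 h4)]
    · rw [if_neg h4, if_neg (fun hc => h4 (h2.1 hc))]
  unfold fh
  rw [h3, Sk_loc k we hl i U V hUV]

omit [NeZero (L * (2 * h))] [NeZero t] [NeZero h] [NeZero (2 * h)] [MeasurableSpace G]
  [MeasurableMul₂ G] [MeasurableInv G] in
lemma ta_one (i : Fin D) (U : St D (L * (2 * h)) t × Fin (D + 1) → G) : ta i 1 U = U := by
  unfold ta
  have e : (fun x : Fin D → ZMod (L * (2 * h)) => if x i = 0 then (1 : Subgroup.center G) else 1) =
      fun _ => 1 := by
    funext x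
    split_ifs <;> rfl
  rw [e, mz_one]

/-- `S` and its reflection -/
def dbl (i : Fin D) (S : Finset (Fin D → ZMod (2 * h))) : Finset (Fin D → ZMod (2 * h)) :=
  S ∪ S.image (rB i)

lemma hP_dbl (i : Fin D) (S : Finset (Fin D → ZMod (2 * h))) (hS : ∀ B ∈ S, (B i).val < h) :
    hP i (dbl i S) = S := by
  ext B
  unfold hP dbl
  rw [Finset.mem_filter, Finset.mem_union, Finset.mem_image]
  constructor
  · rintro ⟨h1 | ⟨B', hB', rfl⟩, h2⟩
    · exact h1
    · exact absurd (hS B' hB') ((rB_lt i B').1 h2)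
  · intro hB
    exact ⟨Or.inl hB, hS B hB⟩

lemma hN_dbl (i : Fin D) (S : Finset (Fin D → ZMod (2 * h))) (hS : ∀ B ∈ S, (B i).val < h) :
    hN i (dbl i S) = S := by
  ext B
  unfold hN dbl
  rw [Finset.mem_image]
  constructor
  · rintro ⟨B', hB', rfl⟩
    obtain ⟨h1, h2⟩ := Finset.mem_filter.1 hB'
    rcases Finset.mem_union.1 h1 with h3 | h3
    · exact absurd (hS B' h3) h2
    · obtain ⟨B'', hB'', rfl⟩ := Finset.mem_image.1 h3
      change rB i (rB i B'') ∈ S
      rw [rB_rB]
      exact hB''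
  · intro hB
    refine ⟨rB i B, Finset.mem_filter.2 ⟨Finset.mem_union_right _ (Finset.mem_image.2 ⟨B, hB, rfl⟩),
      ?_⟩, rB_rB i B⟩
    rw [rB_lt]
    exact fun hc => hc (hS B hB)

lemma card_dbl (i : Fin D) (S : Finset (Fin D → ZMod (2 * h))) (hS : ∀ B ∈ S, (B i).val < h) :
    (dbl i S).card = 2 * S.card := by
  unfold dbl
  rw [Finset.card_union_of_disjoint, Finset.card_image_of_injective]
  · ring
  · intro a b hab
    have := congrArg (rB i) hab
    rwa [rB_rB, rB_rB] at this
  · rw [Finset.disjoint_left]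
    intro B hB hB'
    obtain ⟨B'', hB'', rfl⟩ := Finset.mem_image.1 hB'
    exact (rB_lt i B'').1 (hS _ hB) (hS _ hB'')

lemma card_hPN (i : Fin D) (A : Finset (Fin D → ZMod (2 * h))) :
    (hP i A).card + (hN i A).card = A.card := by
  unfold hP hN
  rw [Finset.card_image_of_injective]
  · exact Finset.card_filter_add_card_filter_not _
  · intro a b hab
    have h1 : rB i a = rB i b := hab
    have := congrArg (rB i) h1
    rwa [rB_rB, rB_rB] at this

lemma hN_lt (i : Fin D) (A : Finset (Fin D → ZMod (2 * h))) : ∀ B ∈ hN i A, (B i).val < h := by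
  intro B hB
  obtain ⟨B', hB', rfl⟩ := Finset.mem_image.1 hB
  exact (rB_lt i B').2 (Finset.mem_filter.1 hB').2

lemma fh_sq (hL : 0 < L) (E : Bd D t L h G) (we : G → ℝ) (hi : ∀ g, we g⁻¹ = we g)
    (hc : ∀ g h, we (h * g * h⁻¹) = we g) (β : ℝ) (k : Fin D → Subgroup.center G) (i : Fin D)
    (hk : k i = 1) (S : Finset (Fin D → ZMod (2 * h))) (hS : ∀ B ∈ S, (B i).val < h) :
    ∫ U, fh E k we β i S U * fh E k we β i S (Th i U) ∂(Measure.pi fun _ => μ) =
      Ik μ E k we β (dbl i S) := by
  unfold Ik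
  refine integral_congr_ae (Filter.Eventually.of_forall fun U => ?_)
  simp only
  have hk' : Function.update k i 1 = k := by rw [← hk, Function.update_eq_self]
  rw [fh_split hL E we hi hc β k i (dbl i S) U, hk', hP_dbl i S hS, hN_dbl i S hS, hk, ta_one]

/-- the Schwarz inequality for the restricted partition functions -/
theorem Ik_sq (hL : 0 < L) (E : Bd D t L h G) (we : G → ℝ) (hm : Measurable we)
    (hi : ∀ g, we g⁻¹ = we g) (hc : ∀ g h, we (h * g * h⁻¹) = we g) (h0 : ∀ g, 0 ≤ we g)
    {β : ℝ} (hβ : 0 ≤ β) (k : Fin D → Subgroup.center G) (i : Fin D)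
    (A : Finset (Fin D → ZMod (2 * h))) :
    Ik μ E k we β A ^ 2 ≤ Ik μ E (Function.update k i 1) we β (dbl i (hP i A)) *
      Ik μ E (Function.update k i 1) we β (dbl i (hN i A)) := by
  have hl : L * (2 * h) = 2 * (L * h) := by ring
  have hPl : ∀ B ∈ hP i A, (B i).val < h := fun B hB => (Finset.mem_filter.1 hB).2
  have hNl := hN_lt i A
  have fm : ∀ S, Measurable (fh (t := t) E (Function.update k i 1) we β i S) := by
    intro S
    exact (J_meas E _ S).mul (Real.measurable_exp.comp (((Sk_meas _ we hm _ i).const_mul β).neg))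
  have fC : ∀ S U, |fh (t := t) E (Function.update k i 1) we β i S U| ≤ 1 := by
    intro S U
    unfold fh
    rw [abs_mul, Real.abs_exp, abs_of_nonneg (J_nonneg _ _ _ _)]
    refine mul_le_one₀ (J_le _ _ _ _) (Real.exp_pos _).le ?_
    rw [Real.exp_le_one_iff]
    have := mul_nonneg hβ (Sk_nonneg (Function.update k i 1) we h0 (L * h) i U)
    linarith
  have h1 := schw (G := G) μ hl i (k i) (fh (t := t) E (Function.update k i 1) we β i (hP i A))
    (fh (t := t) E (Function.update k i 1) we β i (hN i A)) (fm _) (fm _) (fC _) (fC _)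
    (fun U V h => fh_loc E _ we β i _ hPl U V h) (fun U V h => fh_loc E _ we β i _ hNl U V h)
  rw [fh_sq μ hL E we hi hc β _ i (by rw [Function.update_self]) _ hPl,
    fh_sq μ hL E we hi hc β _ i (by rw [Function.update_self]) _ hNl] at h1
  refine le_trans (le_of_eq ?_) h1
  congr 1
  unfold Ik
  refine integral_congr_ae (Filter.Eventually.of_forall fun U => ?_)
  exact fh_split hL E we hi hc β k i A U

/-- the twist does not increase the restricted partition functions -/
theorem Ik_le (hL : 0 < L) (E : Bd D t L h G) (we : G → ℝ) (hm : Measurable we)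
    (hi : ∀ g, we g⁻¹ = we g) (hc : ∀ g h, we (h * g * h⁻¹) = we g) (h0 : ∀ g, 0 ≤ we g)
    {β : ℝ} (hβ : 0 ≤ β) {Z c : ℝ} (hZ : 0 ≤ Z) (hc0 : 0 ≤ c)
    (hb : ∀ A, Ik μ E (fun _ => 1) we β A ≤ Z * c ^ A.card)
    (k : Fin D → Subgroup.center G) (A : Finset (Fin D → ZMod (2 * h))) :
    Ik μ E k we β A ≤ Z * c ^ A.card := by
  have key : ∀ (S : Finset (Fin D)) (k : Fin D → Subgroup.center G), (∀ i, i ∉ S → k i = 1) →
      ∀ A, Ik μ E k we β A ≤ Z * c ^ A.card := by
    intro S
    induction S using Finset.induction_on with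
    | empty =>
      intro k hk A
      have : k = fun _ => 1 := funext fun i => hk i (Finset.notMem_empty i)
      rw [this]
      exact hb A
    | insert i S hiS ih =>
      intro k hk A
      have hk' : ∀ j, j ∉ S → Function.update k i 1 j = 1 := by
        intro j hj
        by_cases hji : j = i
        · subst hji; rw [Function.update_self]
        · rw [Function.update_of_ne hji]
          exact hk j (fun h => (Finset.mem_insert.1 h).elim hji hj)
      have h1 := Ik_sq μ hL E we hm hi hc h0 hβ k i A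
      have h2 := ih _ hk' (dbl i (hP i A))
      have h3 := ih _ hk' (dbl i (hN i A))
      rw [card_dbl i (hP i A) (fun B hB => (Finset.mem_filter.1 hB).2)] at h2
      rw [card_dbl i _ (hN_lt i A)] at h3
      have h4 := h1.trans (mul_le_mul h2 h3 (Ik_nonneg _ _ _ _ _ _) (by positivity))
      have h5 : Z * c ^ (2 * (hP i A).card) * (Z * c ^ (2 * (hN i A).card)) =
          (Z * c ^ A.card) ^ 2 := by
        rw [← card_hPN i A, mul_pow, ← pow_mul]
        ring
      rw [h5] at h4
      exact (pow_le_pow_iff_left₀ (Ik_nonneg _ _ _ _ _ _) (by positivity) two_ne_zero).1 h4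
  exact key Finset.univ k (fun i hi' => absurd (Finset.mem_univ i) hi') A

end main

end

end Pool.Agent.H991.VF
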