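import Mathlib
import Pool.Agent.H991.VF.TwC
import Pool.Agent.H991.VF.Ani
import Pool.Agent.H991.DC.Core

/-!
# The labels of the blocks in a twisted torus
-/

open MeasureTheory Matrix Finset
open scoped Matrix.Norms.Frobenius
open Pool.Agent.N899.SB
open Pool.Agent.N899.BB (we)
open Pool.Agent.N899.BB.Low (norm_lmul norm_rmul we_eq mt_mul mt_inv)
open Pool.Agent.Y14.Wilson
open Pool.Agent.H991.DC
open scoped IsMulCommutative

namespace Pool.Agent.H991.VF

noncomputable section

section loc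

variable {D t L h : ℕ} [NeZero (L * (2 * h))] [NeZero t] [NeZero h] [NeZero (2 * h)]
variable {G : Type*} [Group G]

omit [NeZero (L * (2 * h))] [NeZero t] [NeZero h] [NeZero (2 * h)] in
lemma em_ev (B : Fin D → ZMod (2 * h)) (r : Fin D → ℕ) (τ : ZMod t) (i : Fin D) :
    ((DC.em L B r, τ) : St D (L * (2 * h)) t) + ev D (L * (2 * h)) t i.castSucc =
      (DC.em L B (Function.update r i (r i + 1)), τ) := by
  rw [ev_cast]
  refine Prod.ext ?_ (add_zero τ)
  change DC.em L B r + Pi.single i 1 = _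
  funext j
  by_cases hj : j = i
  · subst hj
    simp only [DC.em, Function.update_self, Pi.add_apply, Pi.single_eq_same]
    push_cast
    ring
  · simp [DC.em, hj]

omit [NeZero (L * (2 * h))] [NeZero t] [NeZero h] [NeZero (2 * h)] in
lemma em_evl (B : Fin D → ZMod (2 * h)) (r : Fin D → ℕ) (τ : ZMod t) :
    ((DC.em L B r, τ) : St D (L * (2 * h)) t) + ev D (L * (2 * h)) t (Fin.last D) =
      (DC.em L B r, τ + 1) := by
  rw [ev_last]
  exact Prod.ext (add_zero _) rfl

/-- two configurations agree in a block -/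
def Agb (B : Fin D → ZMod (2 * h)) (U V : St D (L * (2 * h)) t × Fin (D + 1) → G) : Prop :=
  ∀ (r : Fin D → ℕ) (τ : ZMod t) (j : Fin (D + 1)), (∀ i, r i ≤ L) →
    (∀ i : Fin D, j = i.castSucc → r i < L) → U ((DC.em L B r, τ), j) = V ((DC.em L B r, τ), j)

omit [NeZero (L * (2 * h))] [NeZero t] [NeZero h] [NeZero (2 * h)] in
lemma pq_blk (B : Fin D → ZMod (2 * h)) (U V : St D (L * (2 * h)) t × Fin (D + 1) → G)
    (hUV : Agb B U V) (r : Fin D → ℕ) (τ : ZMod t) (a b : Fin (D + 1)) (hab : a < b)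
    (hok : Ok L a b r) : pq (ev D (L * (2 * h)) t) U (DC.em L B r, τ) a b =
      pq (ev D (L * (2 * h)) t) V (DC.em L B r, τ) a b := by
  have ha : a ≠ Fin.last D := (lt_of_lt_of_le hab (Fin.le_last b)).ne
  obtain ⟨i, rfl⟩ : ∃ i : Fin D, a = i.castSucc := ⟨a.castPred ha, (Fin.castSucc_castPred a ha).symm⟩
  have hi := (hok i).2 (Or.inl rfl)
  have hr : ∀ j, r j ≤ L := fun j => (hok j).1
  have hup : ∀ j : Fin D, r j < L → ∀ m, Function.update r j (r j + 1) m ≤ L := by
    intro j hj m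
    by_cases hm : m = j
    · subst hm; rw [Function.update_self]; omega
    · rw [Function.update_of_ne hm]; exact hr m
  by_cases hb : b = Fin.last D
  · subst hb
    unfold pq
    rw [em_ev, em_evl]
    rw [hUV r τ i.castSucc hr (fun m hm => by
        rw [← Fin.castSucc_injective D hm]; exact hi),
      hUV (Function.update r i (r i + 1)) τ (Fin.last D) (hup i hi) (fun m hm =>
        absurd hm (Fin.castSucc_lt_last m).ne'),
      hUV r (τ + 1) i.castSucc hr (fun m hm => by
        rw [← Fin.castSucc_injective D hm]; exact hi),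
      hUV r τ (Fin.last D) hr (fun m hm => absurd hm (Fin.castSucc_lt_last m).ne')]
  · obtain ⟨j, rfl⟩ : ∃ j : Fin D, b = j.castSucc := ⟨b.castPred hb, (Fin.castSucc_castPred b hb).symm⟩
    have hj := (hok j).2 (Or.inr rfl)
    have hij : i ≠ j := fun h => hab.ne (by rw [h])
    unfold pq
    rw [em_ev, em_ev]
    rw [hUV r τ i.castSucc hr (fun m hm => by
        rw [← Fin.castSucc_injective D hm]; exact hi),
      hUV (Function.update r i (r i + 1)) τ j.castSucc (hup i hi) (fun m hm => by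
        rw [← Fin.castSucc_injective D hm, Function.update_of_ne hij.symm]; exact hj),
      hUV (Function.update r j (r j + 1)) τ i.castSucc (hup j hj) (fun m hm => by
        rw [← Fin.castSucc_injective D hm, Function.update_of_ne hij]; exact hi),
      hUV r τ j.castSucc hr (fun m hm => by
        rw [← Fin.castSucc_injective D hm]; exact hj)]

omit [NeZero (L * (2 * h))] [NeZero t] [NeZero h] [NeZero (2 * h)] in
lemma E1_blk (we : G → ℝ) (ε : ℝ) (B : Fin D → ZMod (2 * h))
    (U V : St D (L * (2 * h)) t × Fin (D + 1) → G) (hUV : Agb B U V) (hU : E1 we ε B U) :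
    E1 we ε B V := by
  obtain ⟨r, τ, a, b, hab, hok, h1⟩ := hU
  refine ⟨r, τ, a, b, hab, hok, ?_⟩
  rwa [← pq_blk B U V hUV r τ a b hab hok]

omit [NeZero (L * (2 * h))] [NeZero t] [NeZero h] [NeZero (2 * h)] in
lemma E2_blk (q : G → Prop) (B : Fin D → ZMod (2 * h))
    (U V : St D (L * (2 * h)) t × Fin (D + 1) → G) (hUV : Agb B U V) (hU : E2 q B U) :
    E2 q B V := by
  intro r hr
  have h1 := hU r hr
  have e : Pol U (DC.em L B r) = Pol V (DC.em L B r) := by
    unfold Pol
    congr 1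
    refine List.map_congr_left fun τ _ => ?_
    exact hUV r (τ : ZMod t) (Fin.last D) hr fun m hm => absurd hm (Fin.castSucc_lt_last m).ne'
  rwa [← e]

end loc

section sub

variable {N : ℕ} {G : Subgroup (UU N)} [MeasurableSpace G] [BorelSpace G] [CompactSpace G]
  [SecondCountableTopology G]
variable {D t L h : ℕ} [NeZero (L * (2 * h))] [NeZero t] [NeZero h] [NeZero (2 * h)]

/-- the bad events -/
def bdE (D L h t : ℕ) [NeZero (L * (2 * h))] [NeZero t] [NeZero h] (ε : ℝ) (q : G → Prop)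
    (hq : MeasurableSet {g : G | q g}) : Bd D t L h G where
  P := bd ε q
  meas B := (E1_meas we (Pool.Agent.N899.BB.Low.we_cont (G := G)).measurable ε B).union
      (E2_meas q hq B)
  loc B U V hUV hU := hU.imp (E1_blk we ε B U V hUV) (E2_blk q B U V hUV)
  refl i B U := or_congr (E1_refl we Pool.Agent.N899.BB.Gauss.we_inv
    (fun g h => Pool.Agent.N899.BB.Asm.we_conj g h) ε i B U) (E2_refl q i B U)

omit [NeZero (2 * h)] in
/-- the untwisted case -/
lemma Ik_one (μ : Measure G) [IsProbabilityMeasure μ] [μ.IsHaarMeasure] [NeZero (2 * h)]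
    (ε : ℝ) (q : G → Prop) (hq : MeasurableSet {g : G | q g}) {β e : ℝ} (hβ : 0 ≤ β)
    (he : 0 ≤ e) (hZ : 0 < prt (D := D) (l := L * (2 * h)) (t := t) μ (we (G := G)) β)
    (h1 : Gw μ (FB D L h t ε q hq) we β (fun _ => 1) ≤
      prt (D := D) (l := L * (2 * h)) (t := t) μ (we (G := G)) β * e ^ (2 * h) ^ D)
    (h2 : Gw μ (FB D L h t ε q hq) we β (fun _ => 2) ≤
      prt (D := D) (l := L * (2 * h)) (t := t) μ (we (G := G)) β * e ^ (2 * h) ^ D)
    (A : Finset (Fin D → ZMod (2 * h))) :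
    Ik μ (bdE D L h t ε q hq) (fun _ => 1) we β A ≤
      prt (D := D) (l := L * (2 * h)) (t := t) μ (we (G := G)) β * (2 * e) ^ A.card := by
  classical
  have h3 := nu_bad μ ε q hq hβ he hZ h1 h2 A
  have hms : MeasurableSet {U : St D (L * (2 * h)) t × Fin (D + 1) → G | ∀ B ∈ A, bd ε q B U} := by
    simp only [Set.ofPred_forall]
    refine MeasurableSet.iInter fun B => MeasurableSet.iInter fun _ => ?_
    exact (E1_meas we (Pool.Agent.N899.BB.Low.we_cont (G := G)).measurable ε B).union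
      (E2_meas q hq B)
  rw [← integral_indicator_one hms, nu_int, div_le_iff₀ hZ, mul_comm ((2 * e) ^ A.card)] at h3
  refine le_trans (le_of_eq ?_) h3
  unfold Ik
  refine integral_congr_ae (Filter.Eventually.of_forall fun U => ?_)
  simp only
  rw [at_one]
  congr 1
  have e1 : ∀ B : Fin D → ZMod (2 * h),
      (tB (fun _ => (1 : Subgroup.center G)) B U : St D (L * (2 * h)) t × Fin (D + 1) → G) = U := by
    intro B
    unfold tB
    have e2 : (cz (fun _ => (1 : Subgroup.center G)) B :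
        (Fin D → ZMod (L * (2 * h))) → Subgroup.center G) = fun _ => 1 := by
      funext x
      exact cz_one B x
    rw [e2, mz_one]
  unfold J
  by_cases hU : ∀ B ∈ A, bd ε q B U
  · rw [Set.indicator_of_mem (by exact hU), if_pos]
    · rfl
    · intro B hB
      rw [e1]
      exact hU B hB
  · rw [Set.indicator_of_notMem (by exact hU), if_neg]
    intro hc
    apply hU
    intro B hB
    have := hc B hB
    rwa [e1] at this

omit [MeasurableSpace G] [BorelSpace G] [CompactSpace G] [SecondCountableTopology G] in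
lemma Pol_mz {l : ℕ} [NeZero l] (c : (Fin D → ZMod l) → Subgroup.center G)
    (U : St D l t × Fin (D + 1) → G) (x : Fin D → ZMod l) :
    Pol (mz c U) x = (c x : G) * Pol U x := by
  rw [← Pol_Tz]
  unfold Pol
  congr 1

omit [MeasurableSpace G] [BorelSpace G] [CompactSpace G] [SecondCountableTopology G] in
lemma cz_step (hL : 0 < L) (k : Fin D → Subgroup.center G) (B : Fin D → ZMod (2 * h)) (i : Fin D) :
    cz (L := L) k B (DC.em L (up i B) fun _ => 0) =
      cz k (up i B) (DC.em L (up i B) fun _ => 0) * (if B i = -1 then k i else 1) := by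
  have hh : 0 < h := Nat.pos_of_ne_zero (NeZero.ne h)
  have hm1 : (-1 : ZMod (2 * h)).val = 2 * h - 1 := by
    have := val_refl (0 : ZMod (2 * h))
    simpa using this
  rw [cz_update k i, cz_update k i (up i B)]
  have e1 : cz (L := L) (Function.update k i 1) B (DC.em L (up i B) fun _ => 0) =
      cz (Function.update k i 1) (up i B) (DC.em L (up i B) fun _ => 0) := by
    unfold cz
    refine Finset.prod_congr rfl fun j _ => ?_
    by_cases hj : j = i
    · subst hj
      rw [Function.update_self]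
      split_ifs <;> rfl
    · have e2 : up i B j = B j := by unfold up; rw [Function.update_of_ne hj]
      rw [e2]
  rw [e1]
  have e3 : ¬ (up i B i = -1 ∧ DC.em L (up i B) (fun _ => 0) i = 0) := by
    rintro ⟨h1, h2⟩
    unfold DC.em at h2
    rw [h1, hm1, add_zero, ZMod.natCast_eq_zero_iff] at h2
    have h3 := Nat.le_of_dvd (Nat.mul_pos hL (by omega)) h2
    have h4 : 2 * h ≤ 2 * h - 1 := Nat.le_of_mul_le_mul_left h3 hL
    omega
  rw [if_neg e3, mul_one]
  congr 1
  by_cases hB : B i = -1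
  · rw [if_pos hB, if_pos]
    refine ⟨hB, ?_⟩
    unfold DC.em up
    rw [Function.update_self, hB, neg_add_cancel, ZMod.val_zero]
    simp
  · rw [if_neg hB, if_neg (fun hc => hB hc.1)]

omit [MeasurableSpace G] [BorelSpace G] [CompactSpace G] [SecondCountableTopology G] in
lemma lab_tw (hL : 0 < L) {ρ : ℝ} (hρ : ∀ z ∈ Subgroup.center G, ∀ z' ∈ Subgroup.center G,
      ‖mt z - mt z'‖ ≤ 2 * ρ → z = z') (k : Fin D → Subgroup.center G)
    (U : St D (L * (2 * h)) t × Fin (D + 1) → G) (B : Fin D → ZMod (2 * h)) (i : Fin D)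
    {z z' : Subgroup.center G} (h1 : Lb ρ (tB k B U) B (z : G))
    (h2 : Lb ρ (tB k (up i B) U) (up i B) (z' : G)) : z = z' * (if B i = -1 then k i else 1) := by
  have hh : 1 < 2 * h := by have := NeZero.ne h; omega
  have : Fact (1 < 2 * h) := ⟨hh⟩
  have e : DC.em L B (Function.update (fun _ => 0) i L) = DC.em L (up i B) (fun _ => 0) := by
    unfold up
    rw [← em_add, ZMod.val_one, mul_one]
    funext j
    by_cases hj : j = i
    · subst hj
      simp [DC.em]
    · simp [DC.em, hj]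
  have h3 := h1 (Function.update (fun _ => 0) i L) (fun j => by
    by_cases hj : j = i
    · subst hj; simp
    · rw [Function.update_of_ne hj]; simp)
  have h4 := h2 (fun _ => 0) (fun _ => Nat.zero_le _)
  rw [e] at h3
  unfold tB at h3 h4
  rw [Pol_mz] at h3 h4
  rw [cz_step hL k B i] at h3
  obtain ⟨P, hP⟩ : ∃ P, P = Pol U (DC.em L (up i B) fun _ => 0) := ⟨_, rfl⟩
  obtain ⟨a, ha⟩ : ∃ a, a = cz (L := L) k (up i B) (DC.em L (up i B) fun _ => 0) := ⟨_, rfl⟩
  obtain ⟨b, hb⟩ : ∃ b, b = (if B i = -1 then k i else 1) := ⟨_, rfl⟩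
  rw [← hP, ← ha, ← hb] at h3
  rw [← hP, ← ha] at h4
  rw [← hb]
  have h5 : ((a * b : Subgroup.center G) : G) * P = (b : G) * ((a : G) * P) := by
    rw [Subgroup.coe_mul, ← mul_assoc, Subgroup.mem_center_iff.1 b.2 (a : G)]
  rw [h5] at h3
  have h6 : ‖mt ((b : G) * ((a : G) * P)) - mt ((b : G) * (z' : G))‖ ≤ ρ := by
    rw [mt_mul, mt_mul (b : G) (z' : G), ← mul_sub, norm_lmul]
    exact h4
  have h7 : (z : G) = (b : G) * (z' : G) := by
    refine hρ z z.2 _ (b * z').2 ?_
    calc ‖mt (z : G) - mt ((b : G) * (z' : G))‖ ≤ ‖mt (z : G) - mt ((b : G) * ((a : G) * P))‖ +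
          ‖mt ((b : G) * ((a : G) * P)) - mt ((b : G) * (z' : G))‖ :=
          norm_sub_le_norm_sub_add_norm_sub _ _ _
      _ ≤ 2 * ρ := by
          rw [norm_sub_rev]
          linarith
  rw [mul_comm]
  exact Subtype.ext h7

open Classical in
/-- there is a long walk of bad blocks in every configuration -/
theorem walk_bad (hD : 0 < D) (hL : 0 < L) {ρ : ℝ} (hρ : 0 < ρ)
    (hz : ∀ z ∈ Subgroup.center G, ∀ z' ∈ Subgroup.center G, ‖mt z - mt z'‖ ≤ 2 * (2 * ρ) → z = z')
    (hq : MeasurableSet {g : G | qf ρ g}) (k : Fin D → Subgroup.center G) (hk : ∃ i, k i ≠ 1)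
    (U : St D (L * (2 * h)) t × Fin (D + 1) → G) :
    ∃ (p : Fin D → ZMod (2 * h)), ∃ w ∈ Wk (2 * ((2 * h) ^ (D - 1) - 1)) p,
      w.toFinset.card = (2 * h) ^ (D - 1) ∧
      J (bdE D L h t (ρ ^ 2 / (2 * D ^ 2) / (L * t) ^ 2) (qf ρ) hq) k w.toFinset U = 1 := by
  obtain ⟨E, hE⟩ : ∃ E, E = bdE D L h t (ρ ^ 2 / (2 * (D : ℝ) ^ 2) / ((L : ℝ) * t) ^ 2) (qf ρ) hq :=
    ⟨_, rfl⟩
  obtain ⟨A, hA⟩ : ∃ A : Finset (Fin D → ZMod (2 * h)),
    A = Finset.univ.filter fun B => E.P B (tB k B U) := ⟨_, rfl⟩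
  have hgood : ∀ B, B ∉ A → ∃ z : Subgroup.center G, Lb (2 * ρ) (tB k B U) B (z : G) := by
    intro B hB
    have hB' : ¬ bd (ρ ^ 2 / (2 * (D : ℝ) ^ 2) / ((L : ℝ) * t) ^ 2) (qf ρ) B (tB k B U) := by
      intro hc
      apply hB
      rw [hA, Finset.mem_filter, hE]
      exact ⟨Finset.mem_univ _, hc⟩
    unfold bd at hB'
    rw [not_or] at hB'
    obtain ⟨z, hz, hl⟩ := good_lab hρ hL hD (tB k B U) B hB'.1 hB'.2
    exact ⟨⟨z, hz⟩, hl⟩
  obtain ⟨lam, hlam⟩ : ∃ lam : (Fin D → ZMod (2 * h)) → Subgroup.center G,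
      ∀ B, B ∉ A → Lb (2 * ρ) (tB k B U) B (lam B : G) := by
    refine ⟨fun B => if hB : B ∉ A then (hgood B hB).choose else 1, fun B hB => ?_⟩
    simp only [dif_pos hB]
    exact (hgood B hB).choose_spec
  obtain ⟨p, w, hw, hw1, hw2⟩ := walk_of_topo A lam k (fun i B hB hB' =>
    lab_tw hL hz k U B i (hlam B hB) (hlam _ hB')) hk
  refine ⟨p, w, hw, hw1, ?_⟩
  rw [← hE]
  unfold J
  rw [if_pos]
  intro B hB
  have := hw2 B hB
  rw [hA, Finset.mem_filter] at this
  exact this.2

end sub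

end

end Pool.Agent.H991.VF
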