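import Mathlib
import Pool.Agent.H991.VF.LabT

/-!
# The bound of the twisted partition function
-/

open MeasureTheory Matrix Finset
open scoped Matrix.Norms.Frobenius
open Pool.Agent.N899.SB
open Pool.Agent.N899.BB (we)
open Pool.Agent.Y14.Wilson
open Pool.Agent.H991.DC
open scoped IsMulCommutative

namespace Pool.Agent.H991.VF

noncomputable section

/-- the twisted partition function -/
def Zk {D l t : ℕ} [NeZero l] [NeZero t] {G : Type*} [Group G] [MeasurableSpace G] (μ : Measure G)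
    (we : G → ℝ) (β : ℝ) (k : Fin D → Subgroup.center G) : ℝ :=
  ∫ U : St D l t × Fin (D + 1) → G, Real.exp (-(β * at' k we U)) ∂(Measure.pi fun _ => μ)

section

variable {N : ℕ} {G : Subgroup (UU N)} [MeasurableSpace G] [BorelSpace G] [CompactSpace G]
  [SecondCountableTopology G] (μ : Measure G) [IsProbabilityMeasure μ] [μ.IsHaarMeasure]
variable {D t L h : ℕ} [NeZero (L * (2 * h))] [NeZero t] [NeZero h] [NeZero (2 * h)]

open Classical in
theorem Zk_le (hD : 0 < D) (hL : 0 < L) {ρ : ℝ} (hρ : 0 < ρ)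
    (hz : ∀ z ∈ Subgroup.center G, ∀ z' ∈ Subgroup.center G, ‖mt z - mt z'‖ ≤ 2 * (2 * ρ) → z = z')
    (hq : MeasurableSet {g : G | qf ρ g}) {β e : ℝ} (hβ : 0 ≤ β) (he : 0 ≤ e)
    (hZ : 0 < prt (D := D) (l := L * (2 * h)) (t := t) μ (we (G := G)) β)
    (h1 : Gw μ (FB D L h t (ρ ^ 2 / (2 * D ^ 2) / (L * t) ^ 2) (qf ρ) hq) we β (fun _ => 1) ≤
      prt (D := D) (l := L * (2 * h)) (t := t) μ (we (G := G)) β * e ^ (2 * h) ^ D)
    (h2 : Gw μ (FB D L h t (ρ ^ 2 / (2 * D ^ 2) / (L * t) ^ 2) (qf ρ) hq) we β (fun _ => 2) ≤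
      prt (D := D) (l := L * (2 * h)) (t := t) μ (we (G := G)) β * e ^ (2 * h) ^ D)
    (k : Fin D → Subgroup.center G) (hk : ∃ i, k i ≠ 1) :
    Zk (D := D) (l := L * (2 * h)) (t := t) μ we β k ≤
      prt (D := D) (l := L * (2 * h)) (t := t) μ (we (G := G)) β *
      ((2 * h : ℕ) ^ D * (3 ^ D) ^ (2 * ((2 * h) ^ (D - 1) - 1)) * (2 * e) ^ (2 * h) ^ (D - 1)) := by
  have hri := Pool.Agent.N899.BB.Gauss.right_inv μ
  have hii := Pool.Agent.N899.BB.Gauss.inv_inv' μ
  obtain ⟨E, hE⟩ : ∃ E, E = bdE D L h t (ρ ^ 2 / (2 * (D : ℝ) ^ 2) / ((L : ℝ) * t) ^ 2) (qf ρ) hq :=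
    ⟨_, rfl⟩
  obtain ⟨Z, hZd⟩ : ∃ Z, Z = prt (D := D) (l := L * (2 * h)) (t := t) μ (we (G := G)) β := ⟨_, rfl⟩
  obtain ⟨m, hm⟩ : ∃ m, m = (2 * h) ^ (D - 1) := ⟨_, rfl⟩
  obtain ⟨n, hn⟩ : ∃ n, n = 2 * ((2 * h) ^ (D - 1) - 1) := ⟨_, rfl⟩
  have hwm := Pool.Agent.N899.BB.Low.we_cont (G := G)
  have hbase : ∀ A, Ik μ E (fun _ => 1) we β A ≤ Z * (2 * e) ^ A.card := by
    intro A
    rw [hE, hZd]
    exact Ik_one μ _ (qf ρ) hq hβ he hZ h1 h2 A
  have hall := Ik_le μ hL E we hwm.measurable Pool.Agent.N899.BB.Gauss.we_inv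
    (fun g h => Pool.Agent.N899.BB.Asm.we_conj g h)
    (fun g => Pool.Agent.N899.BB.Low.we_nonneg g) hβ (hZd ▸ hZ.le) (by positivity : (0 : ℝ) ≤ 2 * e)
    hbase k
  -- the finite family of the walks
  obtain ⟨W, hW⟩ : ∃ W : (Fin D → ZMod (2 * h)) → Finset (List (Fin D → ZMod (2 * h))),
    W = fun p => (Wk n p).filter fun w => w.toFinset.card = m := ⟨_, rfl⟩
  have hint : ∀ A, Integrable (fun U : St D (L * (2 * h)) t × Fin (D + 1) → G =>
      J E k A U * Real.exp (-(β * at' k we U))) (Measure.pi fun _ => μ) := by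
    intro A
    refine Integrable.of_bound (C := 1) ?_ (Filter.Eventually.of_forall fun U => ?_)
    · exact ((J_meas E k A).mul (Real.measurable_exp.comp
        (measurable_const.mul (at_meas k we hwm.measurable)).neg)).aestronglyMeasurable
    · rw [Real.norm_eq_abs, abs_mul, abs_of_nonneg (J_nonneg _ _ _ _), Real.abs_exp]
      refine mul_le_one₀ (J_le _ _ _ _) (Real.exp_pos _).le ?_
      rw [Real.exp_le_one_iff]
      have := mul_nonneg hβ (at_nonneg k we (fun g => Pool.Agent.N899.BB.Low.we_nonneg g) U)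
      linarith
  have hsum : Zk (D := D) (l := L * (2 * h)) (t := t) μ we β k ≤
      ∑ p, ∑ w ∈ W p, Ik μ E k we β w.toFinset := by
    unfold Zk Ik
    have e1 : ∑ p, ∑ w ∈ W p, ∫ U, J E k w.toFinset U * Real.exp (-(β * at' k we U))
        ∂(Measure.pi fun _ => μ) = ∫ U, ∑ p, ∑ w ∈ W p, J E k w.toFinset U *
          Real.exp (-(β * at' k we U)) ∂(Measure.pi fun _ => μ) := by
      rw [integral_finsetSum _ fun p _ => integrable_finsetSum _ fun w _ => hint _]
      refine Finset.sum_congr rfl fun p _ => ?_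
      rw [integral_finsetSum _ fun w _ => hint _]
    rw [e1]
    refine integral_mono_of_nonneg (Filter.Eventually.of_forall fun U => (Real.exp_pos _).le)
      (integrable_finsetSum _ fun p _ => integrable_finsetSum _ fun w _ => hint _)
      (Filter.Eventually.of_forall fun U => ?_)
    obtain ⟨p, w, hw, hw1, hw2⟩ := walk_bad hD hL hρ hz hq k hk U
    rw [← hE] at hw2
    rw [← hn] at hw
    rw [← hm] at hw1
    have hwW : w ∈ W p := by
      rw [hW]
      exact Finset.mem_filter.2 ⟨hw, hw1⟩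
    simp only
    calc Real.exp (-(β * at' k we U)) = J E k w.toFinset U * Real.exp (-(β * at' k we U)) := by
          rw [hw2, one_mul]
      _ ≤ ∑ w ∈ W p, J E k w.toFinset U * Real.exp (-(β * at' k we U)) :=
          Finset.single_le_sum (f := fun w : List (Fin D → ZMod (2 * h)) =>
            J E k w.toFinset U * Real.exp (-(β * at' k we U)))
            (fun w _ => mul_nonneg (J_nonneg _ _ _ _) (Real.exp_pos _).le) hwW
      _ ≤ _ := Finset.single_le_sum (f := fun p : Fin D → ZMod (2 * h) =>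
            ∑ w ∈ W p, J E k w.toFinset U * Real.exp (-(β * at' k we U)))
            (fun p _ => Finset.sum_nonneg fun w _ =>
              mul_nonneg (J_nonneg _ _ _ _) (Real.exp_pos _).le) (Finset.mem_univ p)
  refine hsum.trans ?_
  have hb : ∀ p, ∑ w ∈ W p, Ik μ E k we β w.toFinset ≤ ((3 ^ D) ^ n : ℕ) * (Z * (2 * e) ^ m) := by
    intro p
    calc ∑ w ∈ W p, Ik μ E k we β w.toFinset ≤ ∑ w ∈ W p, Z * (2 * e) ^ m := by
          refine Finset.sum_le_sum fun w hw => ?_
          rw [hW] at hw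
          have := hall w.toFinset
          rwa [(Finset.mem_filter.1 hw).2] at this
      _ = (W p).card * (Z * (2 * e) ^ m) := by rw [Finset.sum_const, nsmul_eq_mul]
      _ ≤ _ := by
          refine mul_le_mul_of_nonneg_right ?_ ?_
          · exact_mod_cast (by
              rw [hW]
              exact (Finset.card_filter_le _ _).trans (Wk_card n p))
          · have : 0 ≤ Z := hZd ▸ hZ.le
            positivity
  calc ∑ p, ∑ w ∈ W p, Ik μ E k we β w.toFinset ≤
        ∑ _p : Fin D → ZMod (2 * h), ((3 ^ D) ^ n : ℕ) * (Z * (2 * e) ^ m) :=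
        Finset.sum_le_sum fun p _ => hb p
    _ = _ := by
        rw [Finset.sum_const, Finset.card_univ, Fintype.card_fun, ZMod.card, Fintype.card_fin,
          nsmul_eq_mul, ← hZd, ← hm, hn, ← hm]
        push_cast
        ring

end

end

end Pool.Agent.H991.VF
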