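import Mathlib
import Pool.Agent.H991.VF.TwC

/-!
# 't Hooft loops: the chessboard estimate in the transverse directions
-/

open MeasureTheory Finset
open Pool.Agent.N899.SB
open Pool.Agent.H991.DC

namespace Pool.Agent.H991.VF

noncomputable section

section cell

variable {D l t : ℕ} [NeZero l] [NeZero t] {G : Type*} [Group G]

/-- the cost of the twist of one plaquette -/
def ct (z : G) (we : G → ℝ) (i : Fin D) (x : Fin D → ZMod l) (U : St D l t × Fin (D + 1) → G) : ℝ :=
  we (z * pq (ev D l t) U (x, 0) i.castSucc (Fin.last D)) -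
    we (pq (ev D l t) U (x, 0) i.castSucc (Fin.last D))

/-- a corner of a cell -/
def sh (i : Fin D) (B : Fin D → ZMod l) (r : Fin D → Bool) : Fin D → ZMod l :=
  fun k => if k = i then B k else B k + (if r k then 1 else 0)

/-- the cost of the twist of one cell -/
def ta' (z : G) (we : G → ℝ) (i : Fin D) (B : Fin D → ZMod l)
    (U : St D l t × Fin (D + 1) → G) : ℝ :=
  if B i = -1 then (2 ^ D : ℝ)⁻¹ * ∑ r : Fin D → Bool, ct z we i (sh i B r) U else 0

omit [NeZero l] [NeZero t] in
lemma ct_Th (z : G) (we : G → ℝ) {i j : Fin D} (hj : j ≠ i) (x : Fin D → ZMod l)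
    (U : St D l t × Fin (D + 1) → G) :
    ct z we i x (Th j U) = ct z we i (Function.update x j (-x j)) U := by
  unfold ct
  rw [pq_Th_ne j U (x, 0) (fun h => hj (Fin.castSucc_injective _ h).symm)
    (fun h => (Fin.castSucc_lt_last j).ne h.symm)]
  rfl

omit [NeZero l] [NeZero t] in
lemma ct_Tr (z : G) (we : G → ℝ) (i j : Fin D) (c : ZMod l) (x : Fin D → ZMod l)
    (U : St D l t × Fin (D + 1) → G) :
    ct z we i x (Tr j c U) = ct z we i (x + Pi.single j c) U := by
  have h : ∀ a b : Fin (D + 1), pq (ev D l t) (Tr j c U) (x, 0) a b =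
      pq (ev D l t) U (x + Pi.single j c, 0) a b := by
    intro a b
    have e : ((x + Pi.single j c, 0) : St D l t) = (x, 0) + (Pi.single j c, 0) := by simp
    rw [e]
    unfold pq Tr
    simp only
    rw [add_right_comm (x, 0) (ev D l t a), add_right_comm (x, 0) (ev D l t b)]
  unfold ct
  rw [h]

omit [NeZero t] in
lemma ct_loc (z : G) (we : G → ℝ) {w : ℕ} (hl : l = 2 * w) {i j : Fin D} (hj : j ≠ i)
    (x : Fin D → ZMod l) (hx : (x j).val ≤ w) (U V : St D l t × Fin (D + 1) → G)
    (h : ∀ e, Hf w j e → U e = V e) : ct z we i x U = ct z we i x V := by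
  unfold ct
  rw [pq_loc hl j U V h (x, 0) i.castSucc (Fin.last D) (Fin.castSucc_lt_last i).ne hx]
  rintro (h' | h')
  · exact absurd (Fin.castSucc_injective _ h').symm hj
  · exact absurd h'.symm (Fin.castSucc_lt_last j).ne

omit [NeZero l] [NeZero t] in
lemma ct_abs (z : G) (we : G → ℝ) {M : ℝ} (h0 : ∀ g, 0 ≤ we g) (hM : ∀ g, we g ≤ M) (i : Fin D)
    (x : Fin D → ZMod l) (U : St D l t × Fin (D + 1) → G) : |ct z we i x U| ≤ M := by
  unfold ct
  rw [abs_le]
  constructor
  · have := h0 (z * pq (ev D l t) U (x, 0) i.castSucc (Fin.last D))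
    have := hM (pq (ev D l t) U (x, 0) i.castSucc (Fin.last D))
    linarith
  · have := hM (z * pq (ev D l t) U (x, 0) i.castSucc (Fin.last D))
    have := h0 (pq (ev D l t) U (x, 0) i.castSucc (Fin.last D))
    linarith

omit [NeZero l] in
lemma sh_i (i : Fin D) (B : Fin D → ZMod l) (r : Fin D → Bool) : sh i B r i = B i := by
  unfold sh
  rw [if_pos rfl]

omit [NeZero l] in
lemma sh_refl {i j : Fin D} (hj : j ≠ i) (B : Fin D → ZMod l) (r : Fin D → Bool) :
    Function.update (sh i B r) j (-sh i B r j) =
      sh i (Function.update B j (-1 - B j)) (Function.update r j (!r j)) := by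
  funext k
  by_cases hk : k = j
  · subst hk
    unfold sh
    simp only [Function.update_self, if_neg hj]
    cases r k
    · simp
      ring
    · simp
      ring
  · unfold sh
    simp only [Function.update_of_ne hk]

omit [NeZero l] in
lemma sh_add {i j : Fin D} (B : Fin D → ZMod l) (r : Fin D → Bool) (c : ZMod l) :
    sh i B r + Pi.single j c = sh i (Function.update B j (B j + c)) r := by
  funext k
  by_cases hk : k = j
  · subst hk
    unfold sh
    simp only [Pi.add_apply, Pi.single_eq_same, Function.update_self]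
    split_ifs <;> ring
  · unfold sh
    simp only [Pi.add_apply, Pi.single_eq_of_ne hk, Function.update_of_ne hk, add_zero]

omit [NeZero l] [NeZero t] in
lemma ta_Th (z : G) (we : G → ℝ) {i j : Fin D} (hj : j ≠ i) (B : Fin D → ZMod l)
    (U : St D l t × Fin (D + 1) → G) :
    ta' z we i B (Th j U) = ta' z we i (Function.update B j (-1 - B j)) U := by
  unfold ta'
  rw [Function.update_of_ne hj.symm]
  by_cases hB : B i = -1
  · rw [if_pos hB, if_pos hB]
    congr 1
    let e : (Fin D → Bool) ≃ (Fin D → Bool) :=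
      { toFun := fun r => Function.update r j (!r j)
        invFun := fun r => Function.update r j (!r j)
        left_inv := fun r => by simp
        right_inv := fun r => by simp }
    conv_rhs => rw [← Equiv.sum_comp e]
    refine Finset.sum_congr rfl fun r _ => ?_
    rw [ct_Th z we hj, sh_refl hj]
    rfl
  · rw [if_neg hB, if_neg hB]

omit [NeZero l] [NeZero t] in
lemma ta_Tr (z : G) (we : G → ℝ) {i j : Fin D} (hj : j ≠ i) (B : Fin D → ZMod l) (c : ZMod l)
    (U : St D l t × Fin (D + 1) → G) :
    ta' z we i B (Tr j c U) = ta' z we i (Function.update B j (B j + c)) U := by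
  unfold ta'
  rw [Function.update_of_ne hj.symm]
  by_cases hB : B i = -1
  · rw [if_pos hB, if_pos hB]
    congr 1
    refine Finset.sum_congr rfl fun r _ => ?_
    rw [ct_Tr, sh_add]
  · rw [if_neg hB, if_neg hB]

omit [NeZero t] in
lemma ta_loc (z : G) (we : G → ℝ) {w : ℕ} (hl : l = 2 * w) {i j : Fin D} (hj : j ≠ i)
    (B : Fin D → ZMod l) (hB : (B j).val < w) (U V : St D l t × Fin (D + 1) → G)
    (h : ∀ e, Hf w j e → U e = V e) : ta' z we i B U = ta' z we i B V := by
  unfold ta'
  by_cases hBi : B i = -1
  · rw [if_pos hBi, if_pos hBi]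
    congr 1
    refine Finset.sum_congr rfl fun r _ => ?_
    refine ct_loc z we hl hj _ ?_ U V h
    unfold sh
    rw [if_neg hj]
    cases r j
    · simp only [Bool.false_eq_true, if_false, add_zero]
      omega
    · simp only [if_true]
      rw [val_add_one_le hl _ hB]
      omega
  · rw [if_neg hBi, if_neg hBi]

omit [NeZero l] [NeZero t] in
lemma ta_abs (z : G) (we : G → ℝ) {M : ℝ} (h0 : ∀ g, 0 ≤ we g) (hM : ∀ g, we g ≤ M) (i : Fin D)
    (B : Fin D → ZMod l) (U : St D l t × Fin (D + 1) → G) : |ta' z we i B U| ≤ M := by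
  have hM0 : 0 ≤ M := (h0 1).trans (hM 1)
  unfold ta'
  split_ifs
  · rw [abs_mul, abs_of_nonneg (by positivity : (0 : ℝ) ≤ (2 ^ D)⁻¹)]
    have h1 : |∑ r : Fin D → Bool, ct z we i (sh i B r) U| ≤ 2 ^ D * M := by
      refine (Finset.abs_sum_le_sum_abs _ _).trans ?_
      refine (Finset.sum_le_sum fun r _ => ct_abs z we h0 hM i _ U).trans ?_
      rw [Finset.sum_const, Finset.card_univ, Fintype.card_fun, Fintype.card_bool,
        Fintype.card_fin, nsmul_eq_mul]
      push_cast
      exact le_rfl
    calc (2 ^ D : ℝ)⁻¹ * |∑ r : Fin D → Bool, ct z we i (sh i B r) U| ≤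
          (2 ^ D : ℝ)⁻¹ * (2 ^ D * M) := mul_le_mul_of_nonneg_left h1 (by positivity)
      _ = M := by
          rw [← mul_assoc, inv_mul_cancel₀ (by positivity), one_mul]
  · rw [abs_zero]
    exact hM0

variable [MeasurableSpace G] [MeasurableMul₂ G] [MeasurableInv G]

omit [NeZero l] [NeZero t] in
lemma ta_meas (z : G) (we : G → ℝ) (hm : Measurable we) (i : Fin D) (B : Fin D → ZMod l) :
    Measurable fun U : St D l t × Fin (D + 1) → G => ta' z we i B U := by
  unfold ta'
  split_ifs
  · refine (Finset.measurable_fun_sum _ fun r _ => ?_).const_mul _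
    unfold ct
    exact (hm.comp ((pq_meas _ _ _).const_mul _)).sub (hm.comp (pq_meas _ _ _))
  · exact measurable_const

end cell

section chess

variable {D h t : ℕ} [NeZero h] [NeZero (2 * h)] [NeZero t]
variable {G : Type*} [Group G] [MeasurableSpace G] [MeasurableMul₂ G] [MeasurableInv G]
variable (μ : Measure G) [IsProbabilityMeasure μ] [μ.IsInvInvariant]

/-- the partition function with twisted cells -/
def GG (z : G) (we : G → ℝ) (β : ℝ) (i : Fin D) (w : (Fin D → ZMod (2 * h)) → Bool) : ℝ :=
  ∫ U : St D (2 * h) t × Fin (D + 1) → G,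
    Real.exp (-(β * (ac we (ev D (2 * h) t) U + ∑ B, if w B then ta' z we i B U else 0)))
    ∂(Measure.pi fun _ => μ)

omit [MeasurableMul₂ G] [MeasurableInv G] [μ.IsInvInvariant] [NeZero h] in
lemma GG_shift (z : G) (we : G → ℝ) (β : ℝ) {i j : Fin D} (hj : j ≠ i) (c : ZMod (2 * h))
    (w : (Fin D → ZMod (2 * h)) → Bool) :
    GG (t := t) μ z we β i (fun B => w (Function.update B j (B j + c))) =
      GG (t := t) μ z we β i w := by
  unfold GG
  have mp := Tr_mp (G := G) (D := D) (l := 2 * h) (t := t) μ j c
  let s : (St D (2 * h) t × Fin (D + 1)) ≃ (St D (2 * h) t × Fin (D + 1)) :=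
    Equiv.prodCongr (Equiv.addRight ((Pi.single j c, 0) : St D (2 * h) t)) (Equiv.refl _)
  have he : MeasurableEmbedding (Tr j c : (St D (2 * h) t × Fin (D + 1) → G) → _) := by
    have e1 : (Tr j c : (St D (2 * h) t × Fin (D + 1) → G) → _) =
        (MeasurableEquiv.piCongrLeft (fun _ : St D (2 * h) t × Fin (D + 1) => G) s.symm) := by
      funext U e
      obtain ⟨e', rfl⟩ := s.symm.surjective e
      rw [MeasurableEquiv.coe_piCongrLeft, Equiv.piCongrLeft_apply_apply]
      obtain ⟨p, j⟩ := e'
      change U (s (s.symm (p, j))) = U (p, j)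
      rw [Equiv.apply_symm_apply]
    rw [e1]
    exact MeasurableEquiv.measurableEmbedding _
  rw [← mp.integral_comp he]
  refine integral_congr_ae (Filter.Eventually.of_forall fun U => ?_)
  simp only
  rw [ac_Tr]
  congr 4
  let q : (Fin D → ZMod (2 * h)) ≃ (Fin D → ZMod (2 * h)) :=
    { toFun := fun B => Function.update B j (B j + c)
      invFun := fun B => Function.update B j (B j - c)
      left_inv := fun B => by simp
      right_inv := fun B => by simp }
  rw [← Equiv.sum_comp q (fun B => if w B then ta' z we i B U else 0)]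
  refine Finset.sum_congr rfl fun B _ => ?_
  rw [ta_Tr z we hj]
  rfl

lemma GG_refl (z : G) (we : G → ℝ) (hm : Measurable we)
    (hi : ∀ g, we g⁻¹ = we g) (hc : ∀ g h, we (h * g * h⁻¹) = we g) (h0 : ∀ g, 0 ≤ we g)
    {M : ℝ} (hM : ∀ g, we g ≤ M) (β : ℝ) (hβ : 0 ≤ β) {i j : Fin D} (hj : j ≠ i)
    (w : (Fin D → ZMod (2 * h)) → Bool) :
    GG (t := t) μ z we β i w ^ 2 ≤
      GG (t := t) μ z we β i
        (fun B => if (B j).val < h then w B else w (Function.update B j (-1 - B j))) *
      GG (t := t) μ z we β i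
        (fun B => if (B j).val < h then w (Function.update B j (-1 - B j)) else w B) := by
  classical
  have hl : 2 * h = 2 * h := rfl
  have hM0 : 0 ≤ M := (h0 1).trans (hM 1)
  set P : Finset (Fin D → ZMod (2 * h)) := Finset.univ.filter fun B => (B j).val < h with hP
  set rB : (Fin D → ZMod (2 * h)) → (Fin D → ZMod (2 * h)) :=
    fun B => Function.update B j (-1 - B j) with hrB
  have rr : ∀ B, rB (rB B) = B := fun B => by simp [hrB]
  have rP : ∀ B, rB B ∈ P ↔ B ∉ P := by
    intro B
    simp only [hP, Finset.mem_filter, Finset.mem_univ, true_and, hrB, Function.update_self]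
    rw [val_refl]
    have := ZMod.val_lt (B j)
    omega
  -- the functions of one half
  obtain ⟨su, hsu⟩ : ∃ su : ((Fin D → ZMod (2 * h)) → Bool) →
      (St D (2 * h) t × Fin (D + 1) → G) → ℝ,
      su = fun v U => ∑ B ∈ P, if v B then ta' z we i B U else 0 := ⟨_, rfl⟩
  have sm : ∀ v, Measurable (su v) := by
    intro v
    rw [hsu]
    refine Finset.measurable_fun_sum _ fun B _ => ?_
    split_ifs
    · exact ta_meas z we hm i B
    · exact measurable_const
  have sC : ∀ v U, |su v U| ≤ P.card * M := by
    intro v U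
    rw [hsu]
    refine (Finset.abs_sum_le_sum_abs _ _).trans ?_
    rw [← nsmul_eq_mul, ← Finset.sum_const]
    refine Finset.sum_le_sum fun B _ => ?_
    split_ifs
    · exact ta_abs z we h0 hM i B U
    · rw [abs_zero]
      exact hM0
  have sl : ∀ v U V, (∀ e, Hf h j e → U e = V e) → su v U = su v V := by
    intro v U V hUV
    rw [hsu]
    refine Finset.sum_congr rfl fun B hB => ?_
    split_ifs
    · exact ta_loc z we hl hj B (Finset.mem_filter.1 hB).2 U V hUV
    · rfl
  set fu : ((Fin D → ZMod (2 * h)) → Bool) → (St D (2 * h) t × Fin (D + 1) → G) → ℝ :=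
    fun v U => Real.exp (-(β * (Sh we h j U + su v U))) with hfu
  have fm : ∀ v, Measurable (fu v) := by
    intro v
    exact Real.measurable_exp.comp ((((Sh_meas we hm _ j).add (sm v)).const_mul β).neg)
  have fC : ∀ v U, |fu v U| ≤ Real.exp (β * (P.card * M)) := by
    intro v U
    simp only [hfu]
    rw [Real.abs_exp, Real.exp_le_exp, ← mul_neg]
    refine mul_le_mul_of_nonneg_left ?_ hβ
    have h1 := Sh_nonneg we h0 h j U
    have h2 := (abs_le.1 (sC v U)).1
    linarith
  have fl : ∀ v U V, (∀ e, Hf h j e → U e = V e) → fu v U = fu v V := by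
    intro v U V hUV
    simp only [hfu]
    rw [Sh_loc we hl j U V hUV, sl v U V hUV]
  -- products of two
  have key : ∀ v v' : (Fin D → ZMod (2 * h)) → Bool, ∀ U : St D (2 * h) t × Fin (D + 1) → G,
      fu v U * fu v' (refl (sg j) (ivf j) U) =
      Real.exp (-(β * (ac we (ev D (2 * h) t) U +
        ∑ B, if (if (B j).val < h then v B else v' (rB B)) then ta' z we i B U else 0))) := by
    intro v v' U
    have e1 : (∑ B, if (if (B j).val < h then v B else v' (rB B)) then ta' z we i B U else 0) =
        su v U + su v' (refl (sg j) (ivf j) U) := by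
      rw [hsu]
      rw [← Finset.sum_filter_add_sum_filter_not Finset.univ (fun B => (B j).val < h)]
      congr 1
      · refine Finset.sum_congr rfl fun B hB => ?_
        rw [if_pos (Finset.mem_filter.1 hB).2]
      · refine Finset.sum_nbij' rB rB ?_ ?_ (fun B _ => rr B) (fun B _ => rr B) ?_
        · intro B hB
          rw [rP]
          simp only [hP, Finset.mem_filter, Finset.mem_univ, true_and] at hB ⊢
          exact hB
        · intro B hB
          have := (rP (rB B)).1 (by rw [rr]; exact hB)
          simp only [hP, Finset.mem_filter, Finset.mem_univ, true_and] at this ⊢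
          exact this
        · intro B hB
          rw [if_neg (Finset.mem_filter.1 hB).2]
          have := ta_Th z we hj (rB B) U
          change (if v' (rB B) then ta' z we i B U else 0) =
            if v' (rB B) then ta' z we i (rB B) (Th j U) else 0
          rw [this]
          congr 2
          exact (rr B).symm
    simp only [hfu]
    rw [e1, S_split we hi hc hl j U, ← Real.exp_add]
    congr 1
    ring
  have hrp := rp (G := G) μ (sg j) (sg_sg j) (ivf j) (iv_sg j) (Hf h j) (Hf1 hl j)
    (fun e h1 h2 => Hf2 hl j e h1 h2) (fu w) (fu fun B => w (rB B)) (fm _) (fm _) (fC _) (fC _)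
    (fl _) (fl _)
  simp only [key] at hrp
  unfold GG
  have e1 : ∀ B, (if (B j).val < h then w B else w (rB (rB B))) = w B := by
    intro B; rw [rr]; split_ifs <;> rfl
  have e2 : ∀ B, (if (B j).val < h then w (rB B) else w (rB (rB B))) =
      if (B j).val < h then w (rB B) else w B := by
    intro B; rw [rr]
  simp only [e1, e2] at hrp
  exact hrp

lemma GG_nonneg (z : G) (we : G → ℝ) (β : ℝ) (i : Fin D) (w : (Fin D → ZMod (2 * h)) → Bool) :
    0 ≤ GG (t := t) μ z we β i w := by
  unfold GG
  exact integral_nonneg fun U => (Real.exp_pos _).le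

end chess

section chess2

variable {D h t : ℕ} [NeZero h] [NeZero (2 * h)] [NeZero t]
variable {G : Type*} [Group G] [MeasurableSpace G] [MeasurableMul₂ G] [MeasurableInv G]
variable (μ : Measure G) [IsProbabilityMeasure μ] [μ.IsInvInvariant]

/-- the chessboard estimate in the directions different from `i` -/
theorem GG_chess (z : G) (we : G → ℝ) (hm : Measurable we)
    (hi : ∀ g, we g⁻¹ = we g) (hc : ∀ g h, we (h * g * h⁻¹) = we g) (h0 : ∀ g, 0 ≤ we g)
    {M : ℝ} (hM : ∀ g, we g ≤ M) (β : ℝ) (hβ : 0 ≤ β) (i : Fin (D + 1))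
    (w : (Fin D → ZMod (2 * h)) → Bool) :
    GG (h := h) (t := t) μ z we β i (fun B => w fun k => B (i.succAbove k)) ^ ((2 * h) ^ D) ≤
      ∏ B : Fin D → ZMod (2 * h), GG (h := h) (t := t) μ z we β i (fun _ => w B) := by
  have hu : ∀ (B : Fin (D + 1) → ZMod (2 * h)) (j : Fin D) (c : ZMod (2 * h)),
      (fun k => Function.update B (i.succAbove j) c (i.succAbove k)) =
        Function.update (fun k => B (i.succAbove k)) j c := by
    intro B j c
    funext k
    by_cases hk : k = j
    · subst hk
      simp only [Function.update_self]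
    · rw [Function.update_of_ne hk,
        Function.update_of_ne (fun h => hk (Fin.succAbove_right_injective h))]
  refine chess (fun v : (Fin D → ZMod (2 * h)) → Bool =>
    GG (h := h) (t := t) μ z we β i (fun B => v fun k => B (i.succAbove k)))
    (fun v => GG_nonneg μ z we β i _) (fun j c v => ?_) (fun j v => ?_) w
  · simp only
    rw [← GG_shift μ z we β (Fin.succAbove_ne i j) c (fun B => v fun k => B (i.succAbove k))]
    simp only [hu]
  · have := GG_refl μ z we hm hi hc h0 hM β hβ (Fin.succAbove_ne i j)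
      (fun B => v fun k => B (i.succAbove k)) (t := t)
    simp only [hu] at this
    exact this

end chess2

end

end Pool.Agent.H991.VF
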