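import Mathlib
import Pool.Agent.H991.VF.Loop
import Pool.Agent.H991.VF.Bnd

/-!
# 't Hooft loops: the area law from the twisted partition functions
-/

open MeasureTheory Finset
open Pool.Agent.N899.SB
open Pool.Agent.H991.DC

namespace Pool.Agent.H991.VF

noncomputable section

section cell

variable {D l t : ℕ} [NeZero l] [NeZero t] {G : Type*} [Group G]

/-- the vector of a corner -/
def vr (i : Fin D) (r : Fin D → Bool) : Fin D → ZMod l :=
  fun k => if k = i then 0 else if r k then 1 else 0

omit [NeZero l] in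
lemma sh_eq (i : Fin D) (B : Fin D → ZMod l) (r : Fin D → Bool) : sh i B r = B + vr i r := by
  funext k
  unfold sh vr
  simp only [Pi.add_apply]
  split_ifs <;> simp

/-- the fraction of the twisted cells around a plaquette -/
def px (i : Fin D) (w : (Fin D → ZMod l) → Bool) (x : Fin D → ZMod l) : ℝ :=
  (2 ^ D : ℝ)⁻¹ * ∑ r : Fin D → Bool, if w (x - vr i r) then (1 : ℝ) else 0

omit [NeZero l] in
lemma px_nonneg (i : Fin D) (w : (Fin D → ZMod l) → Bool) (x : Fin D → ZMod l) : 0 ≤ px i w x := by
  unfold px
  refine mul_nonneg (by positivity) (Finset.sum_nonneg fun r _ => ?_)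
  split_ifs <;> norm_num

omit [NeZero l] in
lemma px_one (i : Fin D) (w : (Fin D → ZMod l) → Bool) (x : Fin D → ZMod l)
    (h : ∀ r, w (x - vr i r) = true) : px i w x = 1 := by
  unfold px
  rw [Finset.sum_congr rfl fun r _ => if_pos (h r), Finset.sum_const, Finset.card_univ,
    Fintype.card_fun, Fintype.card_bool, Fintype.card_fin, nsmul_eq_mul, mul_one]
  push_cast
  exact inv_mul_cancel₀ (by positivity)

omit [NeZero l] in
lemma px_zero (i : Fin D) (w : (Fin D → ZMod l) → Bool) (x : Fin D → ZMod l)
    (h : ∀ r, ¬ w (x - vr i r) = true) : px i w x = 0 := by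
  unfold px
  rw [Finset.sum_congr rfl fun r _ => if_neg (h r), Finset.sum_const_zero, mul_zero]

omit [NeZero l] in
lemma px_le (i : Fin D) (w : (Fin D → ZMod l) → Bool) (x : Fin D → ZMod l) : px i w x ≤ 1 := by
  unfold px
  have h1 : ∑ r : Fin D → Bool, (if w (x - vr i r) then (1 : ℝ) else 0) ≤ 2 ^ D := by
    calc ∑ r : Fin D → Bool, (if w (x - vr i r) then (1 : ℝ) else 0) ≤
          ∑ _r : Fin D → Bool, (1 : ℝ) := Finset.sum_le_sum fun r _ => by split_ifs <;> norm_num
      _ = 2 ^ D := by
          rw [Finset.sum_const, Finset.card_univ, Fintype.card_fun, Fintype.card_bool,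
            Fintype.card_fin, nsmul_eq_mul, mul_one]
          push_cast
          rfl
  calc _ ≤ (2 ^ D : ℝ)⁻¹ * 2 ^ D := mul_le_mul_of_nonneg_left h1 (by positivity)
    _ = 1 := inv_mul_cancel₀ (by positivity)

omit [NeZero t] in
lemma cells_sum (z : G) (we : G → ℝ) (i : Fin D) (w : (Fin D → ZMod l) → Bool)
    (U : St D l t × Fin (D + 1) → G) :
    (∑ B, if w B then ta' z we i B U else 0) =
      ∑ x, if x i = -1 then px i w x * ct z we i x U else 0 := by
  classical
  have e1 : ∀ B : Fin D → ZMod l, (if w B then ta' z we i B U else 0) =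
      (2 ^ D : ℝ)⁻¹ * ∑ r : Fin D → Bool, if B i = -1 ∧ w B = true then
        ct z we i (sh i B r) U else 0 := by
    intro B
    unfold ta'
    by_cases h1 : w B = true
    · by_cases h2 : B i = -1
      · rw [if_pos h1, if_pos h2]
        congr 1
        refine Finset.sum_congr rfl fun r _ => ?_
        rw [if_pos ⟨h2, h1⟩]
      · rw [if_pos h1, if_neg h2]
        rw [Finset.sum_congr rfl fun r _ => if_neg fun h => h2 h.1, Finset.sum_const_zero, mul_zero]
    · rw [if_neg h1]
      rw [Finset.sum_congr rfl fun r _ => if_neg fun h => h1 h.2, Finset.sum_const_zero, mul_zero]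
  rw [Finset.sum_congr rfl fun B _ => e1 B, ← Finset.mul_sum, Finset.sum_comm]
  have e2 : ∀ r : Fin D → Bool, (∑ B : Fin D → ZMod l, if B i = -1 ∧ w B = true then
      ct z we i (sh i B r) U else 0) = ∑ x : Fin D → ZMod l,
        if x i = -1 ∧ w (x - vr i r) = true then ct z we i x U else 0 := by
    intro r
    rw [← Equiv.sum_comp (Equiv.addRight (vr i r : Fin D → ZMod l))
      (fun x => if x i = -1 ∧ w (x - vr i r) = true then ct z we i x U else 0)]
    refine Finset.sum_congr rfl fun B _ => ?_
    have h1 : (Equiv.addRight (vr i r : Fin D → ZMod l)) B = sh i B r := by rw [sh_eq]; rfl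
    rw [h1, sh_i]
    congr 2
    rw [sh_eq, add_sub_cancel_right]
  rw [Finset.sum_congr rfl fun r _ => e2 r, Finset.sum_comm, Finset.mul_sum]
  refine Finset.sum_congr rfl fun x _ => ?_
  by_cases hx : x i = -1
  · rw [if_pos hx]
    unfold px
    rw [mul_assoc]
    congr 1
    rw [Finset.sum_mul]
    refine Finset.sum_congr rfl fun r _ => ?_
    by_cases h : w (x - vr i r) = true
    · rw [if_pos ⟨hx, h⟩, if_pos h, one_mul]
    · rw [if_neg (fun h' => h h'.2), if_neg h, zero_mul]
  · rw [if_neg hx, Finset.sum_congr rfl fun r _ => if_neg fun h => hx h.1, Finset.sum_const_zero,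
      mul_zero]

lemma at_ct (z : Subgroup.center G) (we : G → ℝ) (i : Fin D) (U : St D l t × Fin (D + 1) → G) :
    at' (Function.update (fun _ => 1) i z) we U = ac we (ev D l t) U +
      ∑ x, if x i = -1 then ct (z : G) we i x U else 0 := by
  classical
  have e1 : at' (Function.update (fun _ => 1) i z) we U - ac we (ev D l t) U =
      ∑ p : St D l t, ∑ a, ∑ b, if a < b then
        (we (tw (Function.update (fun _ => 1) i z) p a b * pq (ev D l t) U p a b) -
          we (pq (ev D l t) U p a b)) else 0 := by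
    unfold at' ac
    rw [← Finset.sum_sub_distrib]
    refine Finset.sum_congr rfl fun p _ => ?_
    rw [← Finset.sum_sub_distrib]
    refine Finset.sum_congr rfl fun a _ => ?_
    rw [← Finset.sum_sub_distrib]
    refine Finset.sum_congr rfl fun b _ => ?_
    split_ifs <;> simp
  have e2 : ∀ p : St D l t, (∑ a, ∑ b, if a < b then
        (we (tw (Function.update (fun _ => 1) i z) p a b * pq (ev D l t) U p a b) -
          we (pq (ev D l t) U p a b)) else 0) =
      if p.2 = 0 ∧ p.1 i = -1 then ct (z : G) we i p.1 U else 0 := by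
    intro p
    have hlt := Fin.castSucc_lt_last i
    rw [Finset.sum_eq_single i.castSucc]
    · rw [Finset.sum_eq_single (Fin.last D)]
      · rw [if_pos hlt]
        by_cases h2 : p.2 = 0
        · rw [tw_cast _ p i h2]
          by_cases h1 : p.1 i = -1
          · rw [if_pos h1, if_pos ⟨h2, h1⟩, Function.update_self]
            have hp : p = (p.1, 0) := Prod.ext rfl h2
            unfold ct
            rw [← hp]
          · rw [if_neg h1, if_neg (fun h => h1 h.2)]
            simp
        · rw [if_neg (fun h => h2 h.1 : ¬ (p.2 = 0 ∧ p.1 i = -1)), tw_ne _ p (fun h => h2 h.2),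
            one_mul, sub_self]
      · intro b _ hb
        split_ifs
        · rw [tw_ne _ p (fun h => hb h.1), one_mul, sub_self]
        · rfl
      · intro h
        exact absurd (Finset.mem_univ _) h
    · intro a _ ha
      refine Finset.sum_eq_zero fun b _ => ?_
      by_cases hab : a < b
      · rw [if_pos hab]
        obtain ⟨j, rfl⟩ : ∃ j : Fin D, a = j.castSucc :=
          ⟨a.castPred (lt_of_lt_of_le hab (Fin.le_last b)).ne,
            (Fin.castSucc_castPred a _).symm⟩
        have hj : j ≠ i := fun h => ha (by rw [h])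
        rw [tw_self (by rw [Function.update_of_ne hj]), one_mul, sub_self]
      · rw [if_neg hab]
    · intro h
      exact absurd (Finset.mem_univ _) h
  have e3 : at' (Function.update (fun _ => 1) i z) we U - ac we (ev D l t) U =
      ∑ x, if x i = -1 then ct (z : G) we i x U else 0 := by
    rw [e1, Finset.sum_congr rfl fun p _ => e2 p, Fintype.sum_prod_type]
    refine Finset.sum_congr rfl fun x _ => ?_
    rw [Finset.sum_eq_single 0]
    · simp only [true_and]
    · intro τ _ hτ
      rw [if_neg fun h => hτ h.1]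
    · intro h
      exact absurd (Finset.mem_univ _) h
  linarith

end cell

section bound

variable {D h t : ℕ} [NeZero h] [NeZero (2 * h)] [NeZero t]
variable {G : Type*} [Group G] [MeasurableSpace G] [MeasurableMul₂ G] [MeasurableInv G]
variable (μ : Measure G) [IsProbabilityMeasure μ] [μ.IsInvInvariant]

omit [MeasurableMul₂ G] [MeasurableInv G] [IsProbabilityMeasure μ] [μ.IsInvInvariant] [NeZero h] in
lemma GG_false (z : G) (we : G → ℝ) (β : ℝ) (i : Fin D) :
    GG (h := h) (t := t) μ z we β i (fun _ => false) =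
      prt (D := D) (l := 2 * h) (t := t) μ we β := by
  unfold GG prt
  refine integral_congr_ae (Filter.Eventually.of_forall fun U => ?_)
  simp

omit [MeasurableMul₂ G] [MeasurableInv G] [IsProbabilityMeasure μ] [μ.IsInvInvariant] [NeZero h] in
lemma GG_true (z : Subgroup.center G) (we : G → ℝ) (β : ℝ) (i : Fin D) :
    GG (h := h) (t := t) μ (z : G) we β i (fun _ => true) =
      Zk (D := D) (l := 2 * h) (t := t) μ we β (Function.update (fun _ => 1) i z) := by
  unfold GG Zk
  refine integral_congr_ae (Filter.Eventually.of_forall fun U => ?_)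
  have e : (∑ B, if (fun _ => true : (Fin D → ZMod (2 * h)) → Bool) B then
      ta' (z : G) we i B U else 0) = ∑ x, if x i = -1 then ct (z : G) we i x U else 0 := by
    rw [cells_sum]
    refine Finset.sum_congr rfl fun x _ => ?_
    rw [px_one i (fun _ => true) x fun _ => rfl, one_mul]
  simp only [at_ct]
  exact congrArg (fun s => Real.exp (-(β * (ac we (ev D (2 * h) t) U + s)))) e

/-- the boundary of a set in a hyperplane -/
def bd {D l : ℕ} (i : Fin D) (S : Finset (Fin D → ZMod l)) : Finset (Fin D → ZMod l) := by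
  classical
  exact S.filter fun x => ∃ y, y ∉ S ∧ y i = x i ∧ ∀ k, y k = x k ∨ y k = x k + 1 ∨ y k = x k - 1

lemma mem_bd {D l : ℕ} (i : Fin D) (S : Finset (Fin D → ZMod l)) (x : Fin D → ZMod l) :
    x ∈ bd i S ↔ x ∈ S ∧ ∃ y, y ∉ S ∧ y i = x i ∧ ∀ k, y k = x k ∨ y k = x k + 1 ∨ y k = x k - 1 := by
  unfold bd
  exact @Finset.mem_filter _ _ (_) _ _

/-- the partition function with a 't Hooft loop -/
def ZS {D l t : ℕ} [NeZero l] [NeZero t] {G : Type*} [Group G] [MeasurableSpace G] (μ : Measure G)
    (z : G) (we : G → ℝ) (β : ℝ) (i : Fin D) (S : Finset (Fin D → ZMod l)) : ℝ :=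
  ∫ U : St D l t × Fin (D + 1) → G,
    Real.exp (-(β * (ac we (ev D l t) U + ∑ x ∈ S, ct z we i x U))) ∂(Measure.pi fun _ => μ)

/-- the cells whose corners are in `S` -/
def wS {D l : ℕ} (i : Fin (D + 1)) (S : Finset (Fin (D + 1) → ZMod l)) (B : Fin D → ZMod l) : Bool := by
  classical
  exact decide (∀ r : Fin (D + 1) → Bool, sh i (i.insertNth (-1) B : Fin (D + 1) → ZMod l) r ∈ S)

end bound

section bound2

variable {D h t : ℕ} [NeZero h] [NeZero (2 * h)] [NeZero t]
variable {G : Type*} [Group G] [MeasurableSpace G] [MeasurableMul₂ G] [MeasurableInv G]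
variable (μ : Measure G) [IsProbabilityMeasure μ] [μ.IsInvInvariant]

lemma wS_iff {l : ℕ} (i : Fin (D + 1)) (S : Finset (Fin (D + 1) → ZMod l))
    (B : Fin (D + 1) → ZMod l) (hB : B i = -1) :
    wS i S (fun k => B (i.succAbove k)) = true ↔ ∀ r : Fin (D + 1) → Bool, sh i B r ∈ S := by
  have h1 : (i.insertNth (-1) (fun k => B (i.succAbove k)) : Fin (D + 1) → ZMod l) = B := by
    rw [← hB]
    exact Fin.insertNth_self_removeNth i B
  unfold wS
  rw [h1, decide_eq_true_iff]

/-- a pointwise comparison -/
lemma compare {l : ℕ} [NeZero l] (z : G) (we : G → ℝ) {M : ℝ} (h0 : ∀ g, 0 ≤ we g)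
    (hM : ∀ g, we g ≤ M) (i : Fin (D + 1)) (S : Finset (Fin (D + 1) → ZMod l))
    (hS : ∀ x ∈ S, x i = -1) (U : St (D + 1) l t × Fin (D + 1 + 1) → G) :
    (∑ B, if wS i S (fun k => B (i.succAbove k)) then ta' z we i B U else 0) - M * (bd i S).card ≤
      ∑ x ∈ S, ct z we i x U := by
  classical
  have hM0 : 0 ≤ M := (h0 1).trans (hM 1)
  rw [cells_sum]
  have e1 : ∑ x ∈ S, ct z we i x U = ∑ x, if x ∈ S then ct z we i x U else 0 := by
    rw [Finset.sum_ite_mem, Finset.univ_inter]
  have e2 : M * (bd i S).card = ∑ x, if x ∈ bd i S then M else 0 := by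
    rw [Finset.sum_ite_mem, Finset.univ_inter, Finset.sum_const, nsmul_eq_mul, mul_comm]
  rw [e1, e2, ← Finset.sum_sub_distrib]
  refine Finset.sum_le_sum fun x _ => ?_
  have hvi : ∀ r : Fin (D + 1) → Bool, (x - vr i r : Fin (D + 1) → ZMod l) i = x i := by
    intro r
    simp [vr]
  obtain ⟨w, hw⟩ : ∃ w : (Fin (D + 1) → ZMod l) → Bool,
    w = fun B => wS i S (fun k => B (i.succAbove k)) := ⟨_, rfl⟩
  have hw' : (fun B : Fin (D + 1) → ZMod l => wS i S (fun k => B (i.succAbove k))) = w := hw.symm
  rw [hw']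
  by_cases hxi : x i = -1
  · rw [if_pos hxi]
    have hwr : ∀ r, w (x - vr i r) = true ↔ ∀ r', sh i (x - vr i r) r' ∈ S := by
      intro r
      rw [hw]
      exact wS_iff i S _ (by rw [hvi, hxi])
    by_cases hx : x ∈ S
    · rw [if_pos hx]
      by_cases hb : x ∈ bd i S
      · rw [if_pos hb]
        have a1 := px_nonneg i w x
        have a2 := px_le i w x
        have a3 := abs_le.1 (ct_abs z we h0 hM i x U)
        nlinarith
      · rw [if_neg hb, sub_zero]
        rw [px_one i w x, one_mul]
        intro r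
        rw [hwr]
        intro r'
        by_contra hcon
        apply hb
        refine (mem_bd i S x).2 ⟨hx, _, hcon, ?_, ?_⟩
        · rw [sh_i, hvi]
        · intro k
          rw [sh_eq]
          simp only [Pi.add_apply, Pi.sub_apply, vr]
          by_cases hk : k = i
          · simp [hk]
          · simp only [if_neg hk]
            cases r k <;> cases r' k <;> simp
    · rw [if_neg hx]
      have hb : x ∉ bd i S := fun h => hx ((mem_bd i S x).1 h).1
      rw [if_neg hb, px_zero i w x, zero_mul, sub_zero]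
      intro r hr
      have := (hwr r).1 hr r
      rw [sh_eq, sub_add_cancel] at this
      exact hx this
  · have hx : x ∉ S := fun h => hxi (hS x h)
    have hb : x ∉ bd i S := fun h => hx ((mem_bd i S x).1 h).1
    rw [if_neg hxi, if_neg hx, if_neg hb, sub_zero]

lemma card_wS {l : ℕ} [NeZero l] (i : Fin (D + 1)) (S : Finset (Fin (D + 1) → ZMod l))
    (hS : ∀ x ∈ S, x i = -1) :
    S.card ≤ (Finset.univ.filter fun B : Fin D → ZMod l => wS i S B = true).card + (bd i S).card := by
  classical
  have h1 : (S \ bd i S).card ≤ (Finset.univ.filter fun B : Fin D → ZMod l => wS i S B = true).card := by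
    refine Finset.card_le_card_of_injOn (fun x k => x (i.succAbove k)) ?_ ?_
    · intro x hx
      have hx' := Finset.mem_sdiff.1 hx
      refine Finset.mem_coe.2 (Finset.mem_filter.2 ⟨Finset.mem_univ _, ?_⟩)
      rw [wS_iff i S x (hS x hx'.1)]
      intro r
      by_contra hcon
      apply hx'.2
      refine (mem_bd i S x).2 ⟨hx'.1, _, hcon, sh_i i x r, fun k => ?_⟩
      unfold sh
      split_ifs <;> simp
    · intro x hx y hy hxy
      have hx' := (Finset.mem_sdiff.1 hx).1
      have hy' := (Finset.mem_sdiff.1 hy).1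
      funext k
      by_cases hk : k = i
      · rw [hk, hS x hx', hS y hy']
      · obtain ⟨k', rfl⟩ := Fin.exists_succAbove_eq hk
        exact congrFun hxy k'
  have h2 := Finset.card_sdiff_add_card S (bd i S)
  have h3 : S.card ≤ (S ∪ bd i S).card := Finset.card_le_card Finset.subset_union_left
  omega

lemma int_exp (f : (St D (2 * h) t × Fin (D + 1) → G) → ℝ) (hf : Measurable f) {C : ℝ}
    (hC : ∀ U, C ≤ f U) (β : ℝ) (hβ : 0 ≤ β) :
    Integrable (fun U => Real.exp (-(β * f U))) (Measure.pi fun _ => μ) := by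
  refine Integrable.of_bound (C := Real.exp (-(β * C))) ?_ (Filter.Eventually.of_forall fun U => ?_)
  · exact (Real.measurable_exp.comp (hf.const_mul β).neg).aestronglyMeasurable
  · rw [Real.norm_eq_abs, Real.abs_exp, Real.exp_le_exp]
    exact neg_le_neg (mul_le_mul_of_nonneg_left (hC U) hβ)

/-- THE AREA LAW from the bound of the twisted partition function -/
theorem ZS_le (z : Subgroup.center G) (we : G → ℝ) (hm : Measurable we)
    (hi : ∀ g, we g⁻¹ = we g) (hc : ∀ g h, we (h * g * h⁻¹) = we g) (h0 : ∀ g, 0 ≤ we g)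
    {M : ℝ} (hM : ∀ g, we g ≤ M) {β : ℝ} (hβ : 0 ≤ β) (i : Fin (D + 1)) {σ : ℝ}
    (hZ : 0 < prt (D := D + 1) (l := 2 * h) (t := t) μ we β)
    (hσ : Zk (D := D + 1) (l := 2 * h) (t := t) μ we β (Function.update (fun _ => 1) i z) ≤
      Real.exp (-(σ * ((2 * h : ℕ) : ℝ) ^ D)) * prt (D := D + 1) (l := 2 * h) (t := t) μ we β)
    (hσ0 : 0 ≤ σ) (S : Finset (Fin (D + 1) → ZMod (2 * h))) (hS : ∀ x ∈ S, x i = -1) :
    ZS (t := t) μ (z : G) we β i S ≤
      Real.exp ((β * M + σ) * (bd i S).card - σ * S.card) *
        prt (D := D + 1) (l := 2 * h) (t := t) μ we β := by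
  classical
  have hM0 : 0 ≤ M := (h0 1).trans (hM 1)
  obtain ⟨Z, hZd⟩ : ∃ Z, Z = prt (D := D + 1) (l := 2 * h) (t := t) μ we β := ⟨_, rfl⟩
  rw [← hZd] at hZ hσ ⊢
  obtain ⟨W, hW⟩ : ∃ W : ℝ, W = GG (h := h) (t := t) μ (z : G) we β i
    (fun B => wS i S fun k => B (i.succAbove k)) := ⟨_, rfl⟩
  obtain ⟨n, hn⟩ : ∃ n, n = (Finset.univ.filter fun B : Fin D → ZMod (2 * h) =>
    wS i S B = true).card := ⟨_, rfl⟩
  obtain ⟨m, hm'⟩ : ∃ m, m = (2 * h) ^ D := ⟨_, rfl⟩
  have hm0 : m ≠ 0 := by
    rw [hm']
    exact pow_ne_zero _ (NeZero.ne _)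
  -- the chessboard estimate
  have h1 : W ^ m ≤ (Z * Real.exp (-(σ * n))) ^ m := by
    have k1 := GG_chess μ (z : G) we hm hi hc h0 hM β hβ i (wS i S) (t := t) (h := h)
    rw [← hW, ← hm'] at k1
    refine k1.trans ?_
    have k2 : ∀ B : Fin D → ZMod (2 * h), GG (h := h) (t := t) μ (z : G) we β i (fun _ => wS i S B) ≤
        Z * Real.exp (if wS i S B = true then -(σ * m) else 0) := by
      intro B
      by_cases hB : wS i S B = true
      · rw [if_pos hB, hB, GG_true]
        refine hσ.trans (le_of_eq ?_)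
        rw [hm', mul_comm]
        push_cast
        rfl
      · rw [if_neg hB, Real.exp_zero, mul_one, Bool.not_eq_true _ |>.mp hB, GG_false, hZd]
    calc ∏ B : Fin D → ZMod (2 * h), GG (h := h) (t := t) μ (z : G) we β i (fun _ => wS i S B) ≤
          ∏ B : Fin D → ZMod (2 * h), (Z * Real.exp (if wS i S B = true then -(σ * m) else 0)) :=
          Finset.prod_le_prod (fun B _ => GG_nonneg μ _ _ _ _ _) fun B _ => k2 B
      _ = Z ^ m * Real.exp (n * (-(σ * m))) := by
          rw [Finset.prod_mul_distrib, Finset.prod_const, Finset.card_univ, Fintype.card_fun,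
            ZMod.card, Fintype.card_fin, ← hm', ← Real.exp_sum, ← Finset.sum_filter,
            Finset.sum_const, ← hn, nsmul_eq_mul]
      _ = _ := by
          rw [mul_pow, ← Real.exp_nat_mul]
          congr 2
          ring
  have h2 : W ≤ Z * Real.exp (-(σ * n)) := le_of_pow_le_pow_left₀ hm0 (by positivity) h1
  -- the comparison
  have h3 : ZS (t := t) μ (z : G) we β i S ≤ Real.exp (β * (M * (bd i S).card)) * W := by
    rw [hW]
    unfold ZS GG
    rw [← integral_const_mul]
    refine integral_mono_of_nonneg (Filter.Eventually.of_forall fun U => (Real.exp_pos _).le) ?_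
      (Filter.Eventually.of_forall fun U => ?_)
    · refine (int_exp μ _ (C := -((Finset.univ : Finset (Fin (D + 1) → ZMod (2 * h))).card * M))
        ?_ ?_ β hβ).const_mul _
      · refine (ac_meas we hm).add (Finset.measurable_fun_sum _ fun B _ => ?_)
        split_ifs
        · exact ta_meas _ we hm i B
        · exact measurable_const
      · intro U
        have a1 := ac_nonneg we h0 U
        have a2 : -((Finset.univ : Finset (Fin (D + 1) → ZMod (2 * h))).card * M) ≤
            ∑ B, if wS i S (fun k => B (i.succAbove k)) then ta' (z : G) we i B U else 0 := by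
          rw [← nsmul_eq_mul, ← Finset.sum_const, ← Finset.sum_neg_distrib]
          refine Finset.sum_le_sum fun B _ => ?_
          split_ifs
          · exact (abs_le.1 (ta_abs _ we h0 hM i B U)).1
          · linarith
        linarith
    · simp only
      rw [← Real.exp_add, Real.exp_le_exp]
      have := compare (z : G) we h0 hM i S hS U
      have h4 := mul_le_mul_of_nonneg_left this hβ
      linarith
  have h5 : (S.card : ℝ) ≤ n + (bd i S).card := by
    have := card_wS i S hS
    rw [← hn] at this
    exact_mod_cast this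
  calc ZS (t := t) μ (z : G) we β i S ≤ Real.exp (β * (M * (bd i S).card)) * W := h3
    _ ≤ Real.exp (β * (M * (bd i S).card)) * (Z * Real.exp (-(σ * n))) :=
        mul_le_mul_of_nonneg_left h2 (Real.exp_pos _).le
    _ = Real.exp (β * (M * (bd i S).card) + -(σ * n)) * Z := by rw [Real.exp_add]; ring
    _ ≤ _ := by
        refine mul_le_mul_of_nonneg_right (Real.exp_le_exp.2 ?_) hZ.le
        have := mul_le_mul_of_nonneg_left h5 hσ0
        linarith

end bound2

end

end Pool.Agent.H991.VF
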