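import Mathlib
import Pool.Agent.H991.VF.Bnd
import Pool.Agent.H991.DC.Main

/-!
# The tension of the interfaces: twisted partition functions at weak coupling
-/

open MeasureTheory Matrix
open scoped Matrix.Norms.Frobenius
open Pool.Agent.N899.SB
open Pool.Agent.N899.BB (we)
open Pool.Agent.Y14.Wilson
open Pool.Agent.H991.DC
open scoped IsMulCommutative

namespace Pool.Agent.H991.VF

noncomputable section

lemma entropy {D M L : ℕ} {u e : ℝ} (hD : 2 ≤ D) (hM : 1 ≤ M) (hL : 1 ≤ L)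
    (hu : 5 * (D : ℝ) + 1 ≤ u) (he : e = Real.exp (-(2 * u * (L : ℝ) ^ (D - 1)))) :
    ((M : ℝ) ^ D * (3 ^ D) ^ (2 * (M ^ (D - 1) - 1)) * (2 * e) ^ M ^ (D - 1)) ≤
      Real.exp (-(u * ((L * M : ℕ) : ℝ) ^ (D - 1))) := by
  obtain ⟨m, hm⟩ : ∃ m, m = M ^ (D - 1) := ⟨_, rfl⟩
  rw [← hm]
  have hMm : M ≤ m := by
    rw [hm]
    calc M = M ^ 1 := (pow_one M).symm
      _ ≤ M ^ (D - 1) := Nat.pow_le_pow_right hM (by omega)
  have hMm' : (M : ℝ) ≤ m := by exact_mod_cast hMm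
  have h1 : (M : ℝ) ^ D ≤ Real.exp (D * m) := by
    have : (M : ℝ) ≤ Real.exp m := by
      have := Real.add_one_le_exp (m : ℝ)
      linarith
    calc (M : ℝ) ^ D ≤ Real.exp m ^ D := pow_le_pow_left₀ (Nat.cast_nonneg _) this D
      _ = _ := by rw [← Real.exp_nat_mul]
  have h2 : ((3 : ℝ) ^ D) ^ (2 * (m - 1)) ≤ Real.exp (4 * D * m) := by
    have h3 : (3 : ℝ) ≤ Real.exp 2 := by
      have := Real.add_one_le_exp (2 : ℝ)
      linarith
    calc ((3 : ℝ) ^ D) ^ (2 * (m - 1)) ≤ ((3 : ℝ) ^ D) ^ (2 * m) :=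
          pow_le_pow_right₀ (one_le_pow₀ (by norm_num)) (by omega)
      _ = (3 : ℝ) ^ (D * (2 * m)) := by rw [← pow_mul]
      _ ≤ Real.exp 2 ^ (D * (2 * m)) := pow_le_pow_left₀ (by norm_num) h3 _
      _ = _ := by
          rw [← Real.exp_nat_mul]
          push_cast
          ring_nf
  have h3 : (2 * e) ^ m ≤ Real.exp (m - 2 * u * (L : ℝ) ^ (D - 1) * m) := by
    have h4 : (2 : ℝ) ≤ Real.exp 1 := by
      have := Real.add_one_le_exp (1 : ℝ)
      linarith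
    have he0 : 0 ≤ e := by rw [he]; exact (Real.exp_pos _).le
    calc (2 * e) ^ m ≤ (Real.exp 1 * e) ^ m :=
          pow_le_pow_left₀ (by positivity) (mul_le_mul_of_nonneg_right h4 he0) m
      _ = _ := by
          rw [he, ← Real.exp_add, ← Real.exp_nat_mul]
          ring_nf
  have h0 : ((L * M : ℕ) : ℝ) ^ (D - 1) = (L : ℝ) ^ (D - 1) * m := by
    rw [hm]
    push_cast
    rw [mul_pow]
  have hLD : (1 : ℝ) ≤ (L : ℝ) ^ (D - 1) := one_le_pow₀ (by exact_mod_cast hL)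
  have hm0 : (0 : ℝ) ≤ m := Nat.cast_nonneg _
  have he0 : 0 ≤ e := by rw [he]; exact (Real.exp_pos _).le
  calc ((M : ℝ) ^ D * (3 ^ D) ^ (2 * (m - 1)) * (2 * e) ^ m) ≤
        Real.exp (D * m) * Real.exp (4 * D * m) * Real.exp (m - 2 * u * (L : ℝ) ^ (D - 1) * m) := by
        refine mul_le_mul (mul_le_mul h1 h2 (by positivity) (Real.exp_pos _).le) h3 (by positivity)
          (by positivity)
    _ = Real.exp ((5 * D + 1) * m - 2 * u * ((L : ℝ) ^ (D - 1) * m)) := by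
        rw [← Real.exp_add, ← Real.exp_add]
        congr 1
        ring
    _ ≤ _ := by
        rw [h0]
        refine Real.exp_le_exp.2 ?_
        have h5 : (5 * (D : ℝ) + 1) * m ≤ u * ((L : ℝ) ^ (D - 1) * m) := by
          refine mul_le_mul hu ?_ hm0 (by
            have : (0 : ℝ) ≤ D := Nat.cast_nonneg _
            linarith)
          exact le_mul_of_one_le_left hm0 hLD
        linarith

theorem main_tw {N : ℕ} (G : Subgroup (UU N)) (hG : IsClosed (G : Set (UU N))) [PreconnectedSpace G]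
    [Finite (Subgroup.center G)] [MeasurableSpace G] [BorelSpace G] (μ : Measure G)
    [IsProbabilityMeasure μ] [μ.IsHaarMeasure] (D : ℕ) (hD : 2 ≤ D) :
    ∃ κ : ℝ, 0 < κ ∧ κ ≤ 1 ∧ ∃ β0 : ℝ, 1 < β0 ∧ ∀ β : ℝ, β0 ≤ β → ∀ (t : ℕ) [NeZero t],
    (t : ℝ) ≤ β ^ κ → ∀ (k l : ℕ) [NeZero l], β ≤ 2 ^ k → 2 ^ k ∣ l →
    0 < prt (D := D) (l := l) (t := t) μ (we (G := G)) β ∧
    ∀ z : Fin D → Subgroup.center G, (∃ i, z i ≠ 1) →
    Zk (D := D) (l := l) (t := t) μ we β z ≤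
      Real.exp (-(β ^ κ * (l : ℝ) ^ (D - 1))) *
        prt (D := D) (l := l) (t := t) μ (we (G := G)) β := by
  have hcG := Pool.Agent.N899.BB.Est.compactG hG
  have hsG : SecondCountableTopology G := Pool.Agent.N899.BB.Est.scG
  obtain ⟨n, ⟨B⟩⟩ := exists_basis hG
  obtain ⟨C, K, hC, hK, hw⟩ := wts G hG μ B
  obtain ⟨p, q, hp, hq, hpar⟩ := par3 C K hC D (by omega)
  have hq0 : (0 : ℝ) < q := by exact_mod_cast hq
  refine ⟨1 / q, by positivity, by
    rw [div_le_one hq0]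
    exact_mod_cast hq, ?_⟩
  obtain ⟨d, hd, hsep⟩ := center_sep G
  obtain ⟨ρ, hρ⟩ : ∃ ρ, ρ = d / 4 := ⟨_, rfl⟩
  have hρ0 : 0 < ρ := by rw [hρ]; positivity
  have hρd : 2 * (2 * ρ) ≤ d := by
    rw [hρ]; linarith
  obtain ⟨c, hc, hlow⟩ := ad_low hG B hρ0
  have hD0 : (0 : ℝ) < D := by exact_mod_cast (by omega : 0 < D)
  have hcosh : 0 < Real.cosh (20 * D) + 1 := by
    have := Real.cosh_pos (20 * D)
    linarith
  obtain ⟨u0, hu0, hu⟩ := hpar (ρ ^ 2 / (2 * D ^ 2)) (c / 2 / (Real.cosh (20 * D) + 1))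
    (by positivity) (by positivity)
  obtain ⟨v, hv⟩ : ∃ v : ℝ, v = u0 + (5 * D + 1) := ⟨_, rfl⟩
  have hv4 : 4 ≤ v := by rw [hv]; linarith
  refine ⟨v ^ q, one_lt_pow₀ (by linarith) (by omega), fun β hβ t _ ht k l _ hk hkl => ?_⟩
  obtain ⟨u, hudef⟩ : ∃ u : ℝ, u = β ^ (1 / (q : ℝ)) := ⟨_, rfl⟩
  have hβ0 : 0 < β := lt_of_lt_of_le (by positivity) hβ
  have huq : u ^ q = β := by
    rw [hudef, one_div, Real.rpow_inv_natCast_pow hβ0.le (by omega)]
  have huv : v ≤ u := by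
    have : (0 : ℝ) ≤ u := by rw [hudef]; positivity
    refine (pow_le_pow_iff_left₀ (by linarith) this (by omega : q ≠ 0)).1 ?_
    rw [huq]
    exact hβ
  have hu1 : 1 ≤ u := by linarith
  rw [← hudef] at ht ⊢
  -- the side of the blocks
  obtain ⟨j, hj1, hj2⟩ := exists_nat_pow_near (x := u ^ p) (y := 2) (one_le_pow₀ hu1) (by norm_num)
  obtain ⟨L, hL⟩ : ∃ L : ℕ, L = 2 ^ (j + 1) := ⟨_, rfl⟩
  have hL1 : u ^ p ≤ L := by rw [hL]; push_cast; exact hj2.le
  have hL2 : (L : ℝ) ≤ 2 * u ^ p := by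
    rw [hL]; push_cast; rw [pow_succ]; linarith
  obtain ⟨r, hr⟩ : ∃ r : ℕ, r = 2 ^ j - 1 := ⟨_, rfl⟩
  have hLr : L = 2 * r + 2 := by
    have : 1 ≤ 2 ^ j := Nat.one_le_two_pow
    rw [hL, hr, pow_succ]
    omega
  have ht1 : 1 ≤ t := Nat.pos_of_ne_zero (NeZero.ne t)
  obtain ⟨hr1, h3, h2L, hs1, hs2⟩ := hu u (by rw [hv] at huv; linarith) L t r ht1 ht hL1 hL2 hLr
  have hLpos : 0 < L := by omega
  -- the number of blocks
  have hdvd : L * 2 ∣ l := by
    refine dvd_trans ?_ hkl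
    have h4 : ((2 ^ (j + 2) : ℕ) : ℝ) ≤ ((2 ^ k : ℕ) : ℝ) := by
      have : ((2 ^ (j + 2) : ℕ) : ℝ) = 2 * (L : ℝ) := by rw [hL]; push_cast; ring
      rw [this]
      push_cast
      rw [huq] at h2L
      linarith
    have h5 : 2 ^ (j + 2) ≤ 2 ^ k := by exact_mod_cast h4
    have h6 : j + 2 ≤ k := (Nat.pow_le_pow_iff_right (by norm_num)).1 h5
    have h7 : L * 2 = 2 ^ (j + 2) := by rw [hL]; ring
    rw [h7]
    exact pow_dvd_pow 2 h6
  obtain ⟨h, hh⟩ := hdvd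
  have hh' : l = L * (2 * h) := by rw [hh]; ring
  subst hh'
  have hh0 : h ≠ 0 := by
    intro h0
    have := NeZero.ne (L * (2 * h))
    apply this
    rw [h0]
    rfl
  have : NeZero h := ⟨hh0⟩
  have : NeZero (2 * h) := ⟨by omega⟩
  -- the cutoff
  obtain ⟨F, hF⟩ : ∃ F : G → ℝ, F = fun P => max 0 (min 1 ((2 * ad B P - c) / c)) := ⟨_, rfl⟩
  have hFc : Continuous F := by
    rw [hF]
    exact continuous_const.max (continuous_const.min
      (((continuous_const.mul (ad_cont B)).sub continuous_const).div_const c))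
  have hF1 : ∀ P, 0 ≤ F P ∧ F P ≤ 1 := by
    intro P
    rw [hF]
    exact ⟨le_max_left _ _, max_le zero_le_one (min_le_left _ _)⟩
  have hFδ : ∀ P, F P ≠ 0 → c / 2 ≤ n - (Ado B P).trace := by
    intro P hP
    by_contra hcon
    push Not at hcon
    apply hP
    have h4 : ad B P < c / 2 := hcon
    rw [hF]
    simp only
    refine max_eq_left ((min_le_right _ _).trans ?_)
    exact div_nonpos_of_nonpos_of_nonneg (by linarith) hc.le
  have hqm : MeasurableSet {g : G | qf ρ g} := by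
    unfold qf
    have hcl : IsClosed {g : G | ∀ z ∈ Subgroup.center G, ρ ≤ ‖mt g - mt z‖} := by
      simp only [Set.setOf_forall]
      exact isClosed_iInter fun z => isClosed_iInter fun _ => isClosed_le continuous_const
        ((continuous_subtype_val.comp continuous_subtype_val : Continuous (mt : G → Mt N)).sub
          continuous_const).norm
    exact hcl.measurableSet
  have hqF : ∀ g : G, qf ρ g → F g = 1 := by
    intro g hg
    have h4 := hlow g hg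
    rw [hF]
    simp only
    rw [min_eq_left, max_eq_right zero_le_one]
    rw [le_div_iff₀ hc]
    linarith
  have hβ3 : 3 ≤ β := by rw [← huq]; exact h3
  obtain ⟨hZ, w1, w2⟩ := hw D L h t r hD hr1 hLr β hβ3 (ρ ^ 2 / (2 * D ^ 2) / (L * t) ^ 2) (c / 2)
    (by positivity) (by positivity) F hFc hF1 hFδ (qf ρ) hqm hqF
  rw [huq] at hs1 hs2
  obtain ⟨e, he⟩ : ∃ e : ℝ, e = Real.exp (-(2 * u * (L : ℝ) ^ (D - 1))) := ⟨_, rfl⟩
  have he0 : 0 < e := by rw [he]; exact Real.exp_pos _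
  have g1 := w1.trans (mul_le_mul_of_nonneg_left (pow_le_pow_left₀ (Real.exp_pos _).le
    (Real.exp_le_exp.2 (neg_le_neg hs1)) _) hZ.le)
  have g2 := w2.trans (mul_le_mul_of_nonneg_left (pow_le_pow_left₀ (Real.exp_pos _).le
    (Real.exp_le_exp.2 (neg_le_neg (by
      refine hs2.trans (le_of_eq ?_)
      ring))) _) hZ.le)
  rw [← he] at g1 g2
  refine ⟨hZ, fun z hz => ?_⟩
  have key := Zk_le (t := t) μ (by omega : 0 < D) hLpos hρ0
    (fun z hz z' hz' hle => hsep z hz z' hz' (hle.trans hρd)) hqm hβ0.le he0.le hZ g1 g2 z hz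
  refine key.trans ?_
  rw [mul_comm]
  refine mul_le_mul_of_nonneg_right ?_ hZ.le
  refine entropy hD (by omega) hLpos ?_ he
  rw [hv] at huv
  linarith

end

end Pool.Agent.H991.VF
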