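import Mathlib
import Pool.Agent.H991.VF.Main3
import Pool.Agent.H991.VF.Loop2

/-!
# The area law of the 't Hooft loops
-/

open MeasureTheory Matrix
open scoped Matrix.Norms.Frobenius
open Pool.Agent.N899.SB
open Pool.Agent.N899.BB (we)
open Pool.Agent.Y14.Wilson
open Pool.Agent.H991.DC
open scoped IsMulCommutative

namespace Pool.Agent.H991.VF

noncomputable section

lemma we_le {N : ℕ} {G : Subgroup (UU N)} (g : G) : we g ≤ 2 * N := by
  unfold we
  rw [Matrix.trace_sub, Matrix.trace_one, Fintype.card_fin, Complex.sub_re, Complex.natCast_re,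
    Matrix.trace, Complex.re_sum]
  have h1 : ∀ i : Fin N, -1 ≤ ((mt g).diag i).re := by
    intro i
    have h2 : ‖(mt g) i i‖ ≤ 1 := entry_norm_bound_of_unitary (g : UU N).2 i i
    have h3 := (abs_le.1 (Complex.abs_re_le_norm ((mt g) i i))).1
    change -1 ≤ ((mt g) i i).re
    linarith
  have h4 : -(N : ℝ) ≤ ∑ i : Fin N, ((mt g).diag i).re := by
    calc -(N : ℝ) = ∑ _i : Fin N, (-1 : ℝ) := by simp
      _ ≤ _ := Finset.sum_le_sum fun i _ => h1 i
  linarith

section

variable {D l t : ℕ} [NeZero l] [NeZero t] {G : Type*} [Group G] [MeasurableSpace G]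
  (μ : Measure G) [IsProbabilityMeasure μ]

lemma bd_shift (i : Fin D) (c : ZMod l) (S : Finset (Fin D → ZMod l)) :
    (bd i (S.map (Equiv.addRight (Pi.single i c)).toEmbedding)).card ≤ (bd i S).card := by
  classical
  refine Finset.card_le_card_of_injOn (fun x => x - Pi.single i c) ?_ ?_
  · intro x hx
    obtain ⟨hx1, y, hy1, hy2, hy3⟩ := (mem_bd i _ x).1 hx
    have hm : ∀ u : Fin D → ZMod l, u ∈ S.map (Equiv.addRight (Pi.single i c)).toEmbedding ↔
        u - Pi.single i c ∈ S := by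
      intro u
      rw [Finset.mem_map]
      constructor
      · rintro ⟨v, hv, rfl⟩
        simpa using hv
      · intro h
        exact ⟨_, h, by simp⟩
    refine (mem_bd i S _).2 ⟨(hm x).1 hx1, y - Pi.single i c, fun h => hy1 ((hm y).2 h), ?_, ?_⟩
    · simp [hy2]
    · intro k
      simp only [Pi.sub_apply]
      rcases hy3 k with h | h | h
      · left; rw [h]
      · right; left; rw [h]; ring
      · right; right; rw [h]; ring
  · intro x _ y _ hxy
    exact sub_left_injective hxy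

lemma ZS_shift (z : G) (we : G → ℝ) (β : ℝ) (i : Fin D) (c : ZMod l)
    (S : Finset (Fin D → ZMod l)) :
    ZS (t := t) μ z we β i S =
      ZS (t := t) μ z we β i (S.map (Equiv.addRight (Pi.single i c)).toEmbedding) := by
  unfold ZS
  have mp := Tr_mp (G := G) (D := D) (l := l) (t := t) μ i c
  let s : (St D l t × Fin (D + 1)) ≃ (St D l t × Fin (D + 1)) :=
    Equiv.prodCongr (Equiv.addRight ((Pi.single i c, 0) : St D l t)) (Equiv.refl _)
  have he : MeasurableEmbedding (Tr i c : (St D l t × Fin (D + 1) → G) → _) := by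
    have e1 : (Tr i c : (St D l t × Fin (D + 1) → G) → _) =
        (MeasurableEquiv.piCongrLeft (fun _ : St D l t × Fin (D + 1) => G) s.symm) := by
      funext U e
      obtain ⟨e', rfl⟩ := s.symm.surjective e
      rw [MeasurableEquiv.coe_piCongrLeft, Equiv.piCongrLeft_apply_apply]
      obtain ⟨p, j⟩ := e'
      change U (s (s.symm (p, j))) = U (p, j)
      rw [Equiv.apply_symm_apply]
    rw [e1]
    exact MeasurableEquiv.measurableEmbedding _
  rw [← mp.integral_comp he]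
  refine integral_congr_ae (Filter.Eventually.of_forall fun U => ?_)
  simp only
  rw [ac_Tr, Finset.sum_map]
  congr 4
  refine Finset.sum_congr rfl fun x _ => ?_
  rw [ct_Tr]
  rfl

end

/-- the twisted partition functions and the 't Hooft loops -/
theorem main_loop {N : ℕ} (G : Subgroup (UU N)) (hG : IsClosed (G : Set (UU N)))
    [PreconnectedSpace G] [Finite (Subgroup.center G)] [MeasurableSpace G] [BorelSpace G]
    (μ : Measure G) [IsProbabilityMeasure μ] [μ.IsHaarMeasure] (D : ℕ) (hD : 2 ≤ D) :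
    ∃ κ : ℝ, 0 < κ ∧ ∃ β0 : ℝ, 0 < β0 ∧ ∀ β : ℝ, β0 ≤ β → ∀ (t : ℕ) [NeZero t],
    (t : ℝ) ≤ β ^ κ → ∀ (k l : ℕ) [NeZero l], β ≤ 2 ^ k → 2 ^ k ∣ l →
    0 < prt (D := D) (l := l) (t := t) μ (we (G := G)) β ∧
    (∀ z : Fin D → Subgroup.center G, (∃ i, z i ≠ 1) →
      Zk (D := D) (l := l) (t := t) μ we β z ≤
        Real.exp (-(β ^ κ * (l : ℝ) ^ (D - 1))) *
        prt (D := D) (l := l) (t := t) μ (we (G := G)) β) ∧
    (∀ (i : Fin D) (z : G), z ∈ Subgroup.center G → z ≠ 1 → ∀ (c : ZMod l)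
      (S : Finset (Fin D → ZMod l)), (∀ x ∈ S, x i = c) →
      ZS (t := t) μ z we β i S ≤
        Real.exp ((2 * N + 1) * β * (bd i S).card - β ^ κ * S.card) *
        prt (D := D) (l := l) (t := t) μ (we (G := G)) β) := by
  have hcG := Pool.Agent.N899.BB.Est.compactG hG
  have hsG : SecondCountableTopology G := Pool.Agent.N899.BB.Est.scG
  have hri := Pool.Agent.N899.BB.Gauss.right_inv μ
  have hii := Pool.Agent.N899.BB.Gauss.inv_inv' μ
  obtain ⟨κ, hκ, hκ1, β0, hβ0, H⟩ := main_tw G hG μ D hD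
  refine ⟨κ, hκ, β0, by linarith, fun β hβ t _ ht k l _ hk hkl => ?_⟩
  obtain ⟨hZ, H1⟩ := H β hβ t ht k l hk hkl
  refine ⟨hZ, H1, fun i z hz hz1 c S hS => ?_⟩
  have hβ1 : 1 < β := lt_of_lt_of_le hβ0 hβ
  obtain ⟨σ, hσ⟩ : ∃ σ, σ = β ^ κ := ⟨_, rfl⟩
  have hσ0 : 0 ≤ σ := by rw [hσ]; positivity
  have hσβ : σ ≤ β := by
    rw [hσ]
    calc β ^ κ ≤ β ^ (1 : ℝ) := Real.rpow_le_rpow_of_exponent_le hβ1.le hκ1
      _ = β := Real.rpow_one β
  rw [← hσ] at H1 ⊢
  -- the side is even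
  have hk0 : k ≠ 0 := by
    rintro rfl
    rw [pow_zero] at hk
    linarith
  have h2 : 2 ∣ l := (dvd_pow_self 2 hk0).trans hkl
  obtain ⟨h, rfl⟩ := h2
  have hh0 : h ≠ 0 := by
    rintro rfl
    exact NeZero.ne (2 * 0) rfl
  have : NeZero h := ⟨hh0⟩
  obtain ⟨D', rfl⟩ : ∃ D', D = D' + 1 := ⟨D - 1, by omega⟩
  have hwm := Pool.Agent.N899.BB.Low.we_cont (G := G)
  obtain ⟨S', hS'⟩ : ∃ S' : Finset (Fin (D' + 1) → ZMod (2 * h)),
    S' = S.map (Equiv.addRight (Pi.single i (-1 - c))).toEmbedding := ⟨_, rfl⟩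
  have hS'1 : ∀ x ∈ S', x i = -1 := by
    intro x hx
    rw [hS', Finset.mem_map] at hx
    obtain ⟨y, hy, rfl⟩ := hx
    simp [hS y hy]
  have hcard : S'.card = S.card := by rw [hS', Finset.card_map]
  have hbd : (bd i S').card ≤ (bd i S).card := by
    rw [hS']
    exact bd_shift i _ S
  have hbd' : ((bd i S').card : ℝ) ≤ (bd i S).card := by exact_mod_cast hbd
  have key := ZS_le (t := t) μ ⟨z, hz⟩ we hwm.measurable Pool.Agent.N899.BB.Gauss.we_inv
    (fun g h => Pool.Agent.N899.BB.Asm.we_conj g h)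
    (fun g => Pool.Agent.N899.BB.Low.we_nonneg g) (fun g => we_le g) (by linarith : 0 ≤ β) i hZ
    (H1 (Function.update (fun _ => 1) i ⟨z, hz⟩) ⟨i, by
      rw [Function.update_self]
      intro h0
      exact hz1 (congrArg Subtype.val h0)⟩) hσ0 S' hS'1
  rw [ZS_shift μ z we β i (-1 - c) S, ← hS']
  refine key.trans (mul_le_mul_of_nonneg_right (Real.exp_le_exp.2 ?_) hZ.le)
  rw [hcard]
  have h3 : (β * (2 * N) + σ) * ((bd i S').card : ℝ) ≤ (2 * N + 1) * β * (bd i S).card := by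
    have hN : (0 : ℝ) ≤ N := Nat.cast_nonneg _
    refine mul_le_mul ?_ hbd' (Nat.cast_nonneg _) (by positivity)
    linarith
  linarith

end

end Pool.Agent.H991.VF
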